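import Pool.Agent.Helper10.HAM.Gadget

/-! # Hamiltonicity gadget: existence of the cycle -/

namespace Pool.HAM

open Vx

variable {D l B : ℕ}

/-- clause `k` is visited from row `i` -/
def Own (c : Fin D × Bool → Fin (2 ^ l)) (h : Fin D × Bool) (i : Fin l) (k : Fin (2 ^ l)) : Prop :=
  bit k i ≠ bit (c h) i ∧ ∀ j, i < j → bit k j = bit (c h) j

theorem own_unique (c : Fin D × Bool → Fin (2 ^ l)) (h : Fin D × Bool) (i i' : Fin l)
    (k : Fin (2 ^ l)) (h1 : Own c h i k) (h2 : Own c h i' k) : i = i' := by
  rcases lt_trichotomy i i' with h3 | h3 | h3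
  · exact absurd (h1.2 i' h3) h2.1
  · exact h3
  · exact absurd (h2.2 i h3) h1.1

theorem own_exists (c : Fin D × Bool → Fin (2 ^ l)) (h : Fin D × Bool) (k : Fin (2 ^ l))
    (hk : k ≠ c h) : ∃ i, Own c h i k := by
  classical
  have hex : ∃ i, bit k i ≠ bit (c h) i := by
    by_contra hcon
    push Not at hcon
    exact hk (bit_ext hcon)
  have hne : (Finset.univ.filter fun i => bit k i ≠ bit (c h) i).Nonempty := by
    obtain ⟨i, hi⟩ := hex
    exact ⟨i, by simpa using hi⟩
  refine ⟨(Finset.univ.filter fun i => bit k i ≠ bit (c h) i).max' hne, ?_, ?_⟩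
  · have := Finset.max'_mem _ hne
    simpa using this
  · intro j hj
    by_contra hcon
    have := Finset.le_max' (Finset.univ.filter fun i => bit k i ≠ bit (c h) i) j (by simpa using hcon)
    exact absurd hj (not_lt.2 this)

/-- two clauses of a row with the same pair are equal -/
theorem own_ix (c : Fin D × Bool → Fin (2 ^ l)) (h : Fin D × Bool) (i : Fin l)
    (k k' : Fin (2 ^ l)) (h1 : Own c h i k) (h2 : Own c h i k') (hix : ix k i = ix k' i) :
    k = k' := by
  apply bit_ext
  intro j
  rcases le_or_gt j i with hj | hj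
  · exact bit_of_ix hix j hj
  · rw [h1.2 j hj, h2.2 j hj]

/-- not the choice itself -/
theorem own_ne (c : Fin D × Bool → Fin (2 ^ l)) (h : Fin D × Bool) (i : Fin l)
    (k : Fin (2 ^ l)) (h1 : Own c h i k) : k ≠ c h := by
  rintro rfl
  exact h1.1 rfl

open Classical in
/-- the detour after position `t` -/
noncomputable def det (c : Fin D × Bool → Fin (2 ^ l)) (h : Fin D × Bool) (i : Fin l)
    (t : Fin (T B i)) : List (Vx D l B) :=
  if hk : ∃ k : Fin (2 ^ l), t.1 = B + 1 + 3 * ix k i ∧ Own c h i k then [cl h hk.choose] else []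

theorem mem_det (c : Fin D × Bool → Fin (2 ^ l)) (h : Fin D × Bool) (i : Fin l)
    (t : Fin (T B i)) (x : Vx D l B) :
    x ∈ det c h i t ↔ ∃ k : Fin (2 ^ l), t.1 = B + 1 + 3 * ix k i ∧ Own c h i k ∧ x = cl h k := by
  unfold det
  split_ifs with hk
  · have h1 := hk.choose_spec
    rw [List.mem_singleton]
    constructor
    · rintro rfl
      exact ⟨_, h1.1, h1.2, rfl⟩
    · rintro ⟨k, hk1, hk2, rfl⟩
      congr 1
      exact own_ix c h i _ _ hk2 h1.2 (by have := h1.1; omega)
  · constructor
    · intro h; cases h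
    · rintro ⟨k, hk1, hk2, _⟩
      exact absurd ⟨k, hk1, hk2⟩ hk

theorem det_eq (c : Fin D × Bool → Fin (2 ^ l)) (h : Fin D × Bool) (i : Fin l)
    (t : Fin (T B i)) :
    (det c h i t : List (Vx D l B)) = [] ∨
      ∃ k : Fin (2 ^ l), t.1 = B + 1 + 3 * ix k i ∧ Own c h i k ∧ det c h i t = [cl h k] := by
  unfold det
  split_ifs with hk
  · right
    exact ⟨_, hk.choose_spec.1, hk.choose_spec.2, rfl⟩
  · left; rfl

/-- pieces of a row -/
noncomputable def piece (c : Fin D × Bool → Fin (2 ^ l)) (h : Fin D × Bool) (i : Fin l)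
    (t : Fin (T B i)) : List (Vx D l B) := row h i t :: det c h i t

/-- a row with its detours, from left to right -/
noncomputable def base (c : Fin D × Bool → Fin (2 ^ l)) (h : Fin D × Bool) (i : Fin l) :
    List (Vx D l B) := (List.ofFn (piece c h i)).flatten

theorem mem_base (c : Fin D × Bool → Fin (2 ^ l)) (h : Fin D × Bool) (i : Fin l) (x : Vx D l B) :
    x ∈ base c h i ↔ (∃ t, x = row h i t) ∨ (∃ k, Own c h i k ∧ x = cl h k) := by
  unfold base piece
  simp only [List.mem_flatten, List.mem_ofFn, exists_exists_eq_and, List.mem_cons, mem_det]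
  constructor
  · rintro ⟨t, rfl | ⟨k, h1, h2, rfl⟩⟩
    · exact Or.inl ⟨t, rfl⟩
    · exact Or.inr ⟨k, h2, rfl⟩
  · rintro (⟨t, rfl⟩ | ⟨k, h2, rfl⟩)
    · exact ⟨t, Or.inl rfl⟩
    · refine ⟨⟨B + 1 + 3 * ix k i, by have := ix_lt k i; unfold T; omega⟩, Or.inr ⟨k, rfl, h2, rfl⟩⟩

theorem nodup_base (c : Fin D × Bool → Fin (2 ^ l)) (h : Fin D × Bool) (i : Fin l) :
    (base c h i : List (Vx D l B)).Nodup := by
  unfold base
  rw [List.nodup_flatten]
  constructor
  · intro L hL
    rw [List.mem_ofFn] at hL
    obtain ⟨t, rfl⟩ := hL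
    unfold piece
    rcases det_eq (B := B) c h i t with e | ⟨k, _, _, e⟩
    · rw [e]; simp
    · rw [e]; simp
  · rw [List.pairwise_ofFn]
    intro t t' htt' x hx hx'
    unfold piece at hx hx'
    rw [List.mem_cons, mem_det] at hx hx'
    rcases hx with rfl | ⟨k, h1, h2, rfl⟩
    · rcases hx' with e | ⟨k, h1, h2, e⟩
      · simp only [row.injEq, heq_eq_eq, true_and] at e
        exact absurd e htt'.ne
      · cases e
    · rcases hx' with e | ⟨k', h1', h2', e⟩
      · cases e
      · simp only [cl.injEq, true_and] at e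
        subst e
        exact absurd (Fin.ext (h1.trans h1'.symm)) htt'.ne

/-- the relation in the direction of the row -/
def Dr (c : Fin D × Bool → Fin (2 ^ l)) (h : Fin D × Bool) (i : Fin l) (x y : Vx D l B) : Prop :=
  if bit (c h) i = false then Arc c x y else Arc c y x

theorem chain_base (c : Fin D × Bool → Fin (2 ^ l)) (h : Fin D × Bool) (i : Fin l) :
    (base c h i : List (Vx D l B)).IsChain (Dr c h i) := by
  unfold base
  rw [List.isChain_flatten]
  · constructor
    · intro L hL
      rw [List.mem_ofFn] at hL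
      obtain ⟨t, rfl⟩ := hL
      unfold piece
      rcases det_eq (B := B) c h i t with e | ⟨k, h1, h2, e⟩
      · rw [e]; exact List.isChain_singleton _
      · rw [e]
        simp only [List.isChain_cons_cons, List.isChain_singleton, and_true]
        unfold Dr
        split_ifs with hb
        · exact Arc.inR h i t k (by have := h2.1; rw [hb] at this; simpa using this) h1
        · exact Arc.outL h i t k (by
            have := h2.1
            have hb : bit (c h) i = true := by simpa using hb
            rw [hb] at this; simpa using this) h1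
    · rw [List.isChain_ofFn]
      intro t ht x hx y hy
      unfold piece at hx hy
      simp only [List.head?_cons, Option.mem_def, Option.some.injEq] at hy
      subst hy
      rcases det_eq (B := B) c h i ⟨t, by omega⟩ with e | ⟨k, h1, h2, e⟩
      · rw [e] at hx
        simp only [List.getLast?_singleton, Option.mem_def, Option.some.injEq] at hx
        subst hx
        unfold Dr
        split_ifs with hb
        · exact Arc.right h i _ _ rfl
        · exact Arc.left h i _ _ rfl
      · rw [e] at hx
        simp only [List.getLast?_cons_cons, List.getLast?_singleton, Option.mem_def,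
          Option.some.injEq] at hx
        subst hx
        simp only at h1
        unfold Dr
        split_ifs with hb
        · exact Arc.outR h i _ k (by have := h2.1; rw [hb] at this; simpa using this)
            (by simp only; omega)
        · exact Arc.inL h i _ k (by
            have := h2.1
            have hb : bit (c h) i = true := by simpa using hb
            rw [hb] at this; simpa using this) (by simp only; omega)
  · intro hmem
    rw [List.mem_ofFn] at hmem
    obtain ⟨t, ht⟩ := hmem
    unfold piece at ht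
    cases ht

/-- the segment of a row, in its direction -/
noncomputable def seg (c : Fin D × Bool → Fin (2 ^ l)) (p : (Fin D × Bool) × Fin l) :
    List (Vx D l B) := if bit (c p.1) p.2 = false then base c p.1 p.2 else (base c p.1 p.2).reverse

theorem mem_seg (c : Fin D × Bool → Fin (2 ^ l)) (p : (Fin D × Bool) × Fin l) (x : Vx D l B) :
    x ∈ seg c p ↔ (∃ t, x = row p.1 p.2 t) ∨ (∃ k, Own c p.1 p.2 k ∧ x = cl p.1 k) := by
  unfold seg
  split_ifs
  · exact mem_base c _ _ x
  · rw [List.mem_reverse]; exact mem_base c _ _ x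

theorem nodup_seg (c : Fin D × Bool → Fin (2 ^ l)) (p : (Fin D × Bool) × Fin l) :
    (seg c p : List (Vx D l B)).Nodup := by
  unfold seg
  split_ifs
  · exact nodup_base c _ _
  · rw [List.nodup_reverse]; exact nodup_base c _ _

theorem chain_seg (c : Fin D × Bool → Fin (2 ^ l)) (p : (Fin D × Bool) × Fin l) :
    (seg c p : List (Vx D l B)).IsChain (Arc c) := by
  have h := chain_base (B := B) c p.1 p.2
  unfold seg
  split_ifs with hb
  · refine h.imp ?_
    intro x y hxy
    unfold Dr at hxy
    rwa [if_pos hb] at hxy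
  · rw [List.isChain_reverse]
    refine h.imp ?_
    intro x y hxy
    unfold Dr at hxy
    rwa [if_neg hb] at hxy

theorem head?_flatten_ofFn {α : Type*} {n : ℕ} (f : Fin n → List α) (hn : 0 < n)
    (hf : f ⟨0, hn⟩ ≠ []) : (List.ofFn f).flatten.head? = (f ⟨0, hn⟩).head? := by
  obtain ⟨m, rfl⟩ : ∃ m, n = m + 1 := ⟨n - 1, by omega⟩
  have e0 : (⟨0, hn⟩ : Fin (m + 1)) = 0 := rfl
  rw [e0] at hf ⊢
  rw [List.ofFn_succ, List.flatten_cons, List.head?_append_of_ne_nil _ hf]

theorem getLast?_flatten_ofFn {α : Type*} {n : ℕ} (f : Fin n → List α) (hn : 0 < n)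
    (hf : f ⟨n - 1, by omega⟩ ≠ []) :
    (List.ofFn f).flatten.getLast? = (f ⟨n - 1, by omega⟩).getLast? := by
  obtain ⟨m, rfl⟩ : ∃ m, n = m + 1 := ⟨n - 1, by omega⟩
  rw [List.ofFn_succ', List.concat_eq_append, List.flatten_append, List.flatten_singleton,
    List.getLast?_append_of_ne_nil]
  · rfl
  · exact hf

theorem base_head (c : Fin D × Bool → Fin (2 ^ l)) (h : Fin D × Bool) (i : Fin l) :
    (base c h i : List (Vx D l B)).head? = some (row h i ⟨0, by unfold T; omega⟩) := by
  unfold base
  rw [head?_flatten_ofFn _ (by unfold T; omega) (by unfold piece; simp)]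
  rfl

theorem base_last (c : Fin D × Bool → Fin (2 ^ l)) (h : Fin D × Bool) (i : Fin l) :
    (base c h i : List (Vx D l B)).getLast? =
      some (row h i ⟨T B i - 1, by unfold T; omega⟩) := by
  unfold base
  rw [getLast?_flatten_ofFn _ (by unfold T; omega) (by unfold piece; simp)]
  unfold piece
  rcases det_eq (B := B) c h i ⟨T B i - 1, by unfold T; omega⟩ with e | ⟨k, h1, h2, e⟩
  · rw [e]
    rfl
  · exfalso
    simp only at h1
    have := ix_lt k i
    unfold T at h1
    omega

theorem seg_ports (c : Fin D × Bool → Fin (2 ^ l)) (p : (Fin D × Bool) × Fin l) :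
    (∃ x, (seg c p : List (Vx D l B)).head? = some x ∧ InPort x) ∧
    (∃ x, (seg c p : List (Vx D l B)).getLast? = some x ∧ OutPort x) := by
  unfold seg
  split_ifs
  · exact ⟨⟨_, base_head c _ _, Or.inl rfl⟩, ⟨_, base_last c _ _, Or.inr (by simp only; unfold T; omega)⟩⟩
  · rw [List.head?_reverse, List.getLast?_reverse]
    exact ⟨⟨_, base_last c _ _, Or.inr (by simp only; unfold T; omega)⟩, ⟨_, base_head c _ _, Or.inl rfl⟩⟩

/-- the segment of a pair of blocks -/
def pseg (c : Fin D × Bool → Fin (2 ^ l)) (b : Fin D) : List (Vx D l B) :=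
  [hub b false, cl (b, false) (c (b, false)), cl (b, true) (c (b, true)), hub b true]

theorem chain_pseg (c : Fin D × Bool → Fin (2 ^ l)) (b : Fin D) :
    (pseg c b : List (Vx D l B)).IsChain (Arc c) := by
  unfold pseg
  simp only [List.isChain_cons_cons, List.isChain_singleton, and_true]
  exact ⟨Arc.hubIn _ _, Arc.y _, Arc.hubOut _ _⟩

/-- segments of the cycle, indexed -/
noncomputable def gseg (c : Fin D × Bool → Fin (2 ^ l)) :
    ((Fin D × Bool) × Fin l) ⊕ Fin D → List (Vx D l B)
  | Sum.inl p => seg c p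
  | Sum.inr b => pseg c b

theorem gseg_ports (c : Fin D × Bool → Fin (2 ^ l)) (p) :
    (∃ x, (gseg c p : List (Vx D l B)).head? = some x ∧ InPort x) ∧
    (∃ x, (gseg c p : List (Vx D l B)).getLast? = some x ∧ OutPort x) := by
  rcases p with p | b
  · exact seg_ports c p
  · exact ⟨⟨hub b false, rfl, rfl⟩, ⟨hub b true, rfl, rfl⟩⟩

theorem gseg_ne (c : Fin D × Bool → Fin (2 ^ l)) (p) : (gseg c p : List (Vx D l B)) ≠ [] := by
  obtain ⟨⟨x, hx, _⟩, _⟩ := gseg_ports (B := B) c p
  intro h
  rw [h] at hx
  cases hx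

theorem gseg_nodup (c : Fin D × Bool → Fin (2 ^ l)) (p) : (gseg c p : List (Vx D l B)).Nodup := by
  rcases p with p | b
  · exact nodup_seg c p
  · simp [gseg, pseg]

theorem gseg_chain (c : Fin D × Bool → Fin (2 ^ l)) (p) :
    (gseg c p : List (Vx D l B)).IsChain (Arc c) := by
  rcases p with p | b
  · exact chain_seg c p
  · exact chain_pseg c b

theorem gseg_disj (c : Fin D × Bool → Fin (2 ^ l)) (p p') (hpp : p ≠ p') :
    List.Disjoint (gseg c p : List (Vx D l B)) (gseg c p') := by
  intro x hx hx'
  rcases p with p | b <;> rcases p' with p' | b'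
  · simp only [gseg, mem_seg] at hx hx'
    rcases hx with ⟨t, rfl⟩ | ⟨k, hk, rfl⟩
    · rcases hx' with ⟨t, e⟩ | ⟨k, _, e⟩
      · simp only [row.injEq] at e
        exact hpp (by rw [Sum.inl.injEq]; exact Prod.ext e.1 e.2.1)
      · cases e
    · rcases hx' with ⟨t, e⟩ | ⟨k', hk', e⟩
      · cases e
      · simp only [cl.injEq] at e
        have e1 : p.1 = p'.1 := e.1
        rw [← e.2, ← e1] at hk'
        exact hpp (by rw [Sum.inl.injEq]; exact Prod.ext e1 (own_unique c _ _ _ _ hk hk'))
  · simp only [gseg, mem_seg, pseg, List.mem_cons, List.not_mem_nil, or_false] at hx hx'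
    rcases hx with ⟨t, rfl⟩ | ⟨k, hk, rfl⟩
    · simp at hx'
    · rcases hx' with e | e | e | e
      · cases e
      · simp only [cl.injEq] at e
        apply own_ne c _ _ _ hk
        rw [e.1, e.2]
      · simp only [cl.injEq] at e
        apply own_ne c _ _ _ hk
        rw [e.1, e.2]
      · cases e
  · simp only [gseg, mem_seg, pseg, List.mem_cons, List.not_mem_nil, or_false] at hx hx'
    rcases hx' with ⟨t, rfl⟩ | ⟨k, hk, rfl⟩
    · simp at hx
    · rcases hx with e | e | e | e
      · cases e
      · simp only [cl.injEq] at e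
        apply own_ne c _ _ _ hk
        rw [e.1, e.2]
      · simp only [cl.injEq] at e
        apply own_ne c _ _ _ hk
        rw [e.1, e.2]
      · cases e
  · simp only [gseg, pseg, List.mem_cons, List.not_mem_nil, or_false] at hx hx'
    have hbb : b ≠ b' := fun e => hpp (by rw [e])
    rcases hx with rfl | rfl | rfl | rfl <;> simp [hbb] at hx'

theorem gseg_cover (c : Fin D × Bool → Fin (2 ^ l)) (x : Vx D l B) : ∃ p, x ∈ gseg c p := by
  rcases x with ⟨h, i, t⟩ | ⟨h, k⟩ | ⟨b, e⟩
  · exact ⟨Sum.inl (h, i), by simp [gseg, mem_seg]⟩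
  · by_cases hk : k = c h
    · obtain ⟨b, e⟩ := h
      refine ⟨Sum.inr b, ?_⟩
      cases e <;> simp [gseg, pseg, hk]
    · obtain ⟨i, hi⟩ := own_exists c h k hk
      exact ⟨Sum.inl (h, i), by simp [gseg, mem_seg, hi]⟩
  · refine ⟨Sum.inr b, ?_⟩
    cases e <;> simp [gseg, pseg]

theorem exists_list (hD : 0 < D) (c : Fin D × Bool → Fin (2 ^ l)) :
    ∃ (L : List (Vx D l B)) (hne : L ≠ []), L.Nodup ∧ (∀ x, x ∈ L) ∧ L.IsChain (Arc c) ∧
      Arc c (L.getLast hne) (L.head hne) := by
  classical
  set P : List (((Fin D × Bool) × Fin l) ⊕ Fin D) := Finset.univ.toList with hP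
  have hPmem : ∀ p, p ∈ P := fun p => by rw [hP]; simp
  have hPnd : P.Nodup := Finset.nodup_toList _
  have hPne : P ≠ [] := List.ne_nil_of_mem (hPmem (Sum.inr ⟨0, hD⟩))
  have hnil : ([] : List (Vx D l B)) ∉ P.map (gseg c) := by
    intro h
    obtain ⟨p, _, hp⟩ := List.mem_map.1 h
    exact gseg_ne c p hp
  have hmem : ∀ x : Vx D l B, x ∈ (P.map (gseg c)).flatten := by
    intro x
    obtain ⟨p, hp⟩ := gseg_cover c x
    exact List.mem_flatten.2 ⟨_, List.mem_map.2 ⟨p, hPmem p, rfl⟩, hp⟩
  have hne : (P.map (gseg c) : List (List (Vx D l B))).flatten ≠ [] :=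
    List.ne_nil_of_mem (hmem (hub ⟨0, hD⟩ false))
  refine ⟨(P.map (gseg c)).flatten, hne, ?_, hmem, ?_, ?_⟩
  · rw [List.nodup_flatten]
    constructor
    · intro L hL
      obtain ⟨p, _, rfl⟩ := List.mem_map.1 hL
      exact gseg_nodup c p
    · rw [List.pairwise_map]
      exact hPnd.imp fun {a b} hab => gseg_disj c a b hab
  · rw [List.isChain_flatten hnil]
    constructor
    · intro L hL
      obtain ⟨p, _, rfl⟩ := List.mem_map.1 hL
      exact gseg_chain c p
    · rw [List.isChain_map]
      have : ∀ a b : ((Fin D × Bool) × Fin l) ⊕ Fin D,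
          ∀ x ∈ (gseg c a : List (Vx D l B)).getLast?, ∀ y ∈ (gseg c b).head?, Arc c x y := by
        intro a b x hx y hy
        obtain ⟨_, ⟨x', hx', ho⟩⟩ := gseg_ports (B := B) c a
        obtain ⟨⟨y', hy', hi⟩, _⟩ := gseg_ports (B := B) c b
        rw [hx'] at hx
        rw [hy'] at hy
        simp only [Option.mem_def, Option.some.injEq] at hx hy
        subst hx hy
        exact Arc.port _ _ ho hi
      exact List.Pairwise.isChain (List.pairwise_of_forall this)
  · apply Arc.port
    · -- last
      obtain ⟨Q, p, hQ⟩ : ∃ Q p, P = Q ++ [p] := ⟨P.dropLast, P.getLast hPne,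
        (List.dropLast_append_getLast hPne).symm⟩
      obtain ⟨_, ⟨x', hx', ho⟩⟩ := gseg_ports (B := B) c p
      have : ((P.map (gseg c) : List (List (Vx D l B))).flatten).getLast? = some x' := by
        rw [hQ, List.map_append, List.flatten_append, List.map_singleton, List.flatten_singleton,
          List.getLast?_append_of_ne_nil _ (gseg_ne c p), hx']
      rw [List.getLast?_eq_some_getLast hne] at this
      simp only [Option.some.injEq] at this
      rw [this]
      exact ho
    · obtain ⟨p, Q, hQ⟩ : ∃ p Q, P = p :: Q := by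
        rcases P with _ | ⟨p, Q⟩
        · exact absurd rfl hPne
        · exact ⟨p, Q, rfl⟩
      obtain ⟨⟨y', hy', hi⟩, _⟩ := gseg_ports (B := B) c p
      have : ((P.map (gseg c) : List (List (Vx D l B))).flatten).head? = some y' := by
        rw [hQ, List.map_cons, List.flatten_cons, List.head?_append_of_ne_nil _ (gseg_ne c p), hy']
      rw [List.head?_eq_some_head hne] at this
      simp only [Option.some.injEq] at this
      rw [this]
      exact hi

end Pool.HAM
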