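import Pool.Agent.Helper10.HAM.Undir

/-! # Expanding a cyclic list of vertices to a cyclic list of paths -/

namespace Pool.HAM

section

variable {W : Type*} {len : W → ℕ} (hlen : ∀ x, 3 ≤ len x)

/-- the path of a vertex -/
def pth (len : W → ℕ) (x : W) : List (Σ x, Fin (len x)) := List.ofFn fun k => ⟨x, k⟩

theorem mem_pth (x : W) (u : Σ x, Fin (len x)) : u ∈ pth len x ↔ u.1 = x := by
  unfold pth
  rw [List.mem_ofFn]
  constructor
  · rintro ⟨k, rfl⟩; rfl
  · rintro rfl
    exact ⟨u.2, rfl⟩

theorem nodup_pth (x : W) : (pth len x).Nodup := by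
  unfold pth
  rw [List.nodup_ofFn]
  intro k k' h
  simpa using h

/-- edges of the expanded cycle -/
def QR (hlen : ∀ x, 3 ≤ len x) (R : W → W → Prop) (u v : Σ x, Fin (len x)) : Prop :=
  Inn u v ∨ ∃ x y, u = lst hlen x ∧ v = fst hlen y ∧ R x y

theorem chain_pth (R : W → W → Prop) (x : W) : (pth len x).IsChain (QR hlen R) := by
  unfold pth
  rw [List.isChain_ofFn]
  intro i hi
  exact Or.inl ⟨rfl, rfl⟩

theorem head_pth (x : W) : (pth len x).head? = some (fst hlen x) := by
  unfold pth
  have h3 := hlen x
  rw [List.head?_eq_getElem?, List.getElem?_eq_getElem (by simpa using (by omega : 0 < len x)),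
    List.getElem_ofFn]
  rfl

theorem last_pth (x : W) : (pth len x).getLast? = some (lst hlen x) := by
  unfold pth
  have h3 := hlen x
  rw [List.getLast?_eq_getElem?, List.length_ofFn,
    List.getElem?_eq_getElem (by simpa using (by omega : len x - 1 < len x)),
    List.getElem_ofFn]
  rfl

include hlen in
theorem pth_ne (x : W) : pth len x ≠ [] := by
  intro h
  have := head_pth hlen x
  rw [h] at this
  cases this

theorem expand_list (R : W → W → Prop) (L : List W) (hne : L ≠ []) (hnd : L.Nodup)
    (hall : ∀ x, x ∈ L) (hch : L.IsChain R) (hcl : R (L.getLast hne) (L.head hne)) :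
    ∃ (M : List (Σ x, Fin (len x))) (hne' : M ≠ []), M.Nodup ∧ (∀ u, u ∈ M) ∧
      M.IsChain (QR hlen R) ∧ QR hlen R (M.getLast hne') (M.head hne') := by
  have hmem : ∀ u, u ∈ (L.map (pth len)).flatten := by
    intro u
    exact List.mem_flatten.2 ⟨_, List.mem_map.2 ⟨u.1, hall _, rfl⟩, (mem_pth _ _).2 rfl⟩
  have hnil : ([] : List (Σ x, Fin (len x))) ∉ L.map (pth len) := by
    intro h
    obtain ⟨p, _, hp⟩ := List.mem_map.1 h
    exact pth_ne hlen p hp
  have hne' : (L.map (pth len)).flatten ≠ [] := by
    obtain ⟨x, hx⟩ := List.exists_mem_of_ne_nil _ hne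
    exact List.ne_nil_of_mem (hmem (fst hlen x))
  refine ⟨(L.map (pth len)).flatten, hne', ?_, hmem, ?_, ?_⟩
  · rw [List.nodup_flatten]
    constructor
    · intro M hM
      obtain ⟨p, _, rfl⟩ := List.mem_map.1 hM
      exact nodup_pth p
    · rw [List.pairwise_map]
      refine hnd.imp ?_
      intro a b hab u hu hu'
      rw [mem_pth] at hu hu'
      exact hab (hu.symm.trans hu')
  · rw [List.isChain_flatten hnil]
    constructor
    · intro M hM
      obtain ⟨p, _, rfl⟩ := List.mem_map.1 hM
      exact chain_pth hlen R p
    · rw [List.isChain_map]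
      refine hch.imp ?_
      intro a b hab x hx y hy
      rw [last_pth hlen] at hx
      rw [head_pth hlen] at hy
      simp only [Option.mem_def, Option.some.injEq] at hx hy
      exact Or.inr ⟨a, b, hx.symm, hy.symm, hab⟩
  · have e1 : ((L.map (pth len)).flatten).getLast hne' = lst hlen (L.getLast hne) := by
      have h1 : L = L.dropLast ++ [L.getLast hne] := (List.dropLast_append_getLast hne).symm
      have : ((L.map (pth len)).flatten).getLast? = some (lst hlen (L.getLast hne)) := by
        conv_lhs => rw [h1]
        rw [List.map_append, List.flatten_append, List.map_singleton, List.flatten_singleton,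
          List.getLast?_append_of_ne_nil _ (pth_ne hlen _), last_pth hlen]
      rw [List.getLast?_eq_some_getLast hne'] at this
      simpa using this
    have e2 : ((L.map (pth len)).flatten).head hne' = fst hlen (L.head hne) := by
      have h1 : L = L.head hne :: L.tail := (List.cons_head_tail hne).symm
      have : ((L.map (pth len)).flatten).head? = some (fst hlen (L.head hne)) := by
        conv_lhs => rw [h1]
        rw [List.map_cons, List.flatten_cons, List.head?_append_of_ne_nil _ (pth_ne hlen _),
          head_pth hlen]
      rw [List.head?_eq_some_head hne'] at this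
      simpa using this
    rw [e1, e2]
    exact Or.inr ⟨_, _, rfl, rfl, hcl⟩

/-- a nodup list is a chain for its cyclic successor -/
theorem formPerm_chain [DecidableEq W] (L : List W) (hnd : L.Nodup) :
    L.IsChain fun x y => L.formPerm x = y := by
  rw [List.isChain_iff_getElem]
  intro i hi
  rw [List.formPerm_apply_getElem _ hnd]
  have : (i + 1) % L.length = i + 1 := Nat.mod_eq_of_lt hi
  simp only [this]

theorem formPerm_close [DecidableEq W] (L : List W) (hnd : L.Nodup) (hne : L ≠ []) :
    L.formPerm (L.getLast hne) = L.head hne := by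
  rw [List.getLast_eq_getElem, List.formPerm_apply_getElem _ hnd]
  have h0 : 0 < L.length := List.length_pos_of_ne_nil hne
  have : (L.length - 1 + 1) % L.length = 0 := by
    rw [Nat.sub_add_cancel h0, Nat.mod_self]
  simp only [this]
  exact List.getElem_zero _

/-- arcs of the cyclic successor -/
theorem formPerm_rel [DecidableEq W] (R : W → W → Prop) (L : List W) (hnd : L.Nodup)
    (hne : L ≠ []) (hall : ∀ x, x ∈ L) (hch : L.IsChain R)
    (hcl : R (L.getLast hne) (L.head hne)) (x : W) : R x (L.formPerm x) := by
  obtain ⟨i, hi, rfl⟩ := List.getElem_of_mem (hall x)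
  rw [List.formPerm_apply_getElem _ hnd]
  by_cases h : i + 1 < L.length
  · have : (i + 1) % L.length = i + 1 := Nat.mod_eq_of_lt h
    simp only [this]
    exact List.isChain_iff_getElem.1 hch i h
  · have e0 : i + 1 = L.length := by omega
    have : (i + 1) % L.length = 0 := by rw [e0, Nat.mod_self]
    simp only [this]
    have h1 : L.getLast hne = L[i] := by
      rw [List.getLast_eq_getElem]
      congr 1
      omega
    have h2 : L.head hne = L[0]'(by omega) := (List.getElem_zero _).symm
    rw [← h1, ← h2]
    exact hcl

end

end Pool.HAM
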