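import Pool.Agent.Helper10.HAM.Local
import Pool.Agent.Helper10.HAM.Exist
import Pool.Agent.Helper10.HAM.Expand

/-! # The Hamiltonicity gadget inside the complete graph on `Fin n` -/

namespace Pool.HAM

open Vx

variable {D l B : ℕ}

def vxEquiv : Vx D l B ≃ (Σ p : (Fin D × Bool) × Fin l, Fin (T B p.2)) ⊕
    (((Fin D × Bool) × Fin (2 ^ l)) ⊕ (Fin D × Bool)) where
  toFun
    | row h i t => Sum.inl ⟨(h, i), t⟩
    | cl h k => Sum.inr (Sum.inl (h, k))
    | hub b e => Sum.inr (Sum.inr (b, e))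
  invFun
    | Sum.inl ⟨(h, i), t⟩ => row h i t
    | Sum.inr (Sum.inl (h, k)) => cl h k
    | Sum.inr (Sum.inr (b, e)) => hub b e
  left_inv x := by cases x <;> rfl
  right_inv x := by rcases x with ⟨⟨h, i⟩, t⟩ | ⟨h, k⟩ | ⟨b, e⟩ <;> rfl

instance : Fintype (Vx D l B) := Fintype.ofEquiv _ vxEquiv.symm

/-- number of vertices of the gadget -/
def cd (D l B : ℕ) : ℕ := 2 * D * (∑ i ∈ Finset.range l, T B i) + 2 * D * 2 ^ l + 2 * D

theorem card_vx : Fintype.card (Vx D l B) = cd D l B := by
  rw [Fintype.card_congr vxEquiv]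
  simp only [Fintype.card_sum, Fintype.card_prod, Fintype.card_fin, Fintype.card_bool, cd,
    Fintype.card_sigma, Fintype.sum_prod_type, Finset.sum_const, Finset.card_univ, smul_eq_mul]
  rw [Fin.sum_univ_eq_sum_range (fun i => T B i) l]
  ring

theorem sum_T (B l : ℕ) : ∑ i ∈ Finset.range l, T B i + 6 = l * (B + 2) + 6 * 2 ^ l := by
  induction l with
  | zero => simp
  | succ l ih =>
    rw [Finset.sum_range_succ]
    have : T B l = B + 2 + 3 * 2 ^ (l + 1) := rfl
    rw [this, pow_succ]
    linarith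

theorem cd_le (D l B : ℕ) : cd D l B ≤ 18 * (D * (l * B + 2 ^ l)) := by
  have h1 := sum_T B l
  have h2 : l < 2 ^ l := Nat.lt_two_pow_self
  have h3 : ∑ i ∈ Finset.range l, T B i ≤ l * B + 8 * 2 ^ l - 6 := by
    have : l * (B + 2) = l * B + 2 * l := by ring
    omega
  have h4 : ∑ i ∈ Finset.range l, T B i + 2 ^ l + 1 ≤ 9 * (l * B + 2 ^ l) := by
    have := Nat.zero_le (l * B)
    have h5 : 1 ≤ 2 ^ l := Nat.one_le_two_pow
    omega
  calc cd D l B = 2 * D * (∑ i ∈ Finset.range l, T B i + 2 ^ l + 1) := by unfold cd; ring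
    _ ≤ 2 * D * (9 * (l * B + 2 ^ l)) := Nat.mul_le_mul_left _ h4
    _ = 18 * (D * (l * B + 2 ^ l)) := by ring

/-- lengths of the paths -/
def ln (n : ℕ) (hD : 0 < D) (x : Vx D l B) : ℕ :=
  3 + if x = hub ⟨0, hD⟩ false then n - 3 * cd D l B else 0

theorem ln_ge (n : ℕ) (hD : 0 < D) (x : Vx D l B) : 3 ≤ ln n hD x := by unfold ln; omega

theorem sum_ln (n : ℕ) (hD : 0 < D) (hn : 3 * cd D l B ≤ n) : ∑ x : Vx D l B, ln n hD x = n := by
  unfold ln
  rw [Finset.sum_add_distrib, Finset.sum_ite_eq' Finset.univ (hub ⟨0, hD⟩ false)]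
  simp only [Finset.sum_const, Finset.card_univ, card_vx, smul_eq_mul, Finset.mem_univ, if_true]
  omega

/-- the vertices of the paths as numbers -/
noncomputable def phi (n : ℕ) (hD : 0 < D) (hn : 3 * cd D l B ≤ n) :
    (Σ x : Vx D l B, Fin (ln n hD x)) ≃ Fin n :=
  Fintype.equivFinOfCardEq (by
    rw [Fintype.card_sigma]
    simp only [Fintype.card_fin]
    exact sum_ln n hD hn)

/-- Hamiltonicity of a set of edges -/
def HamP (n : ℕ) (S : Finset (Sym2 (Fin n))) : Prop :=
  (SimpleGraph.fromEdgeSet (S : Set (Sym2 (Fin n)))).IsHamiltonian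

/-- alive arcs -/
def alv (p : (Fin D × Bool) × Fin l) (e : Bool) (j : Fin B) : Vx D l B × Vx D l B :=
  if e = false then
    (row p.1 p.2 ⟨j.1, by have := j.2; unfold T; omega⟩,
      row p.1 p.2 ⟨j.1 + 1, by have := j.2; unfold T; omega⟩)
  else (row p.1 p.2 ⟨j.1 + 1, by have := j.2; unfold T; omega⟩,
    row p.1 p.2 ⟨j.1, by have := j.2; unfold T; omega⟩)

theorem alv_arc (c : Fin D × Bool → Fin (2 ^ l)) (p : (Fin D × Bool) × Fin l) (e : Bool)
    (j : Fin B) : Arc c (alv p e j).1 (alv p e j).2 := by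
  unfold alv
  split_ifs
  · exact Arc.right _ _ _ _ rfl
  · exact Arc.left _ _ _ _ rfl

section

variable (n : ℕ) (hD : 0 < D) (hn : 3 * cd D l B ≤ n)

/-- the edge of an arc -/
noncomputable def ed (x y : Vx D l B) : Sym2 (Fin n) :=
  s(phi n hD hn (lst (ln_ge n hD) x), phi n hD hn (fst (ln_ge n hD) y))

theorem lst_ne_fst (x y : Vx D l B) : lst (ln_ge n hD) x ≠ fst (ln_ge n hD) y := by
  intro h
  have h1 : x = y := congrArg Sigma.fst h
  have h2 : ln n hD x - 1 = 0 := by
    have := congrArg (fun z : Σ x : Vx D l B, Fin (ln n hD x) => z.2.1) h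
    simpa [lst, fst] using this
  have := ln_ge n hD x
  omega

theorem ed_inj (x y x' y' : Vx D l B) (h : ed n hD hn x y = ed n hD hn x' y') :
    x = x' ∧ y = y' := by
  unfold ed at h
  rw [Sym2.eq_iff] at h
  rcases h with ⟨h1, h2⟩ | ⟨h1, h2⟩
  · exact ⟨congrArg Sigma.fst ((phi n hD hn).injective h1),
      congrArg Sigma.fst ((phi n hD hn).injective h2)⟩
  · exact absurd ((phi n hD hn).injective h1) (lst_ne_fst n hD x y')

theorem inn_ne_ed (u v : Σ x : Vx D l B, Fin (ln n hD x)) (huv : Inn u v) (x y : Vx D l B) :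
    s(phi n hD hn u, phi n hD hn v) ≠ ed n hD hn x y := by
  intro h
  unfold ed at h
  rw [Sym2.eq_iff] at h
  obtain ⟨h1, h2⟩ := huv
  have h5 := ln_ge n hD x
  rcases h with ⟨h3, h4⟩ | ⟨h3, h4⟩
  · have h3 := (phi n hD hn).injective h3
    have h4 := (phi n hD hn).injective h4
    have e3 : u.2.1 = ln n hD x - 1 := by rw [h3]; rfl
    have e4 : v.2.1 = 0 := by rw [h4]; rfl
    omega
  · have h3 := (phi n hD hn).injective h3
    have h4 := (phi n hD hn).injective h4
    have e3 : u.2.1 = 0 := by rw [h3]; rfl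
    have e4 : v.2.1 = ln n hD x - 1 := by rw [h4]; rfl
    omega

/-- the index with given bits -/
noncomputable def idx (e : Fin l → Bool) : Fin (2 ^ l) := (bit_surj e).choose

theorem bit_idx (e : Fin l → Bool) (i : Fin l) : bit (idx e) i = e i := (bit_surj e).choose_spec i

theorem idx_inj (e e' : Fin l → Bool) (h : idx e = idx e') : e = e' := by
  funext i
  rw [← bit_idx e, ← bit_idx e', h]

theorem idx_surj (k : Fin (2 ^ l)) : ∃ e, idx e = k := ⟨bit k, bit_ext fun i => bit_idx _ i⟩

/-- alive edges -/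
noncomputable def Xv (q : ((Fin D × Bool) × Fin l) × (Bool × Fin B)) : Sym2 (Fin n) :=
  ed n hD hn (alv q.1 q.2.1 q.2.2).1 (alv q.1 q.2.1 q.2.2).2

/-- derivative edges -/
noncomputable def Yv (q : Fin D × (Fin l → Bool) × (Fin l → Bool)) : Sym2 (Fin n) :=
  ed n hD hn (cl (q.1, false) (idx q.2.1)) (cl (q.1, true) (idx q.2.2))

open Classical in
/-- the other edges -/
noncomputable def Zv : Finset (Sym2 (Fin n)) :=
  Finset.univ.filter fun e => e ∉ Set.range (Xv n hD hn : _ → Sym2 (Fin n)) ∧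
    e ∉ Set.range (Yv (B := B) n hD hn) ∧
    ((∃ u v : Σ x : Vx D l B, Fin (ln n hD x), Inn u v ∧ e = s(phi n hD hn u, phi n hD hn v)) ∨
      ∃ (c : Fin D × Bool → Fin (2 ^ l)) (x y : Vx D l B), Arc c x y ∧ e = ed n hD hn x y)

theorem inj_XY : Function.Injective (Sum.elim (Xv (D := D) (l := l) (B := B) n hD hn)
    (Yv n hD hn)) := by
  rintro (⟨p, e, j⟩ | ⟨b, a, a'⟩) (⟨p', e', j'⟩ | ⟨b', a2, a2'⟩) h
  · simp only [Sum.elim_inl, Xv] at h
    obtain ⟨h1, h2⟩ := ed_inj n hD hn _ _ _ _ h
    unfold alv at h1 h2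
    rw [Sum.inl.injEq]
    obtain ⟨p1, p2⟩ := p
    obtain ⟨p1', p2'⟩ := p'
    cases e <;> cases e' <;>
      simp only [if_true, Bool.true_eq_false, if_false, row.injEq] at h1 h2
    · obtain ⟨rfl, rfl, h3⟩ := h1
      have h3 := eq_of_heq h3
      rw [Fin.mk.injEq] at h3
      have : j = j' := Fin.ext h3
      rw [this]
    · obtain ⟨rfl, rfl, h3⟩ := h1
      have h3 := eq_of_heq h3
      have h4 := eq_of_heq h2.2.2
      rw [Fin.mk.injEq] at h3 h4
      omega
    · obtain ⟨rfl, rfl, h3⟩ := h1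
      have h3 := eq_of_heq h3
      have h4 := eq_of_heq h2.2.2
      rw [Fin.mk.injEq] at h3 h4
      omega
    · obtain ⟨rfl, rfl, h3⟩ := h2
      have h3 := eq_of_heq h3
      rw [Fin.mk.injEq] at h3
      have : j = j' := Fin.ext h3
      rw [this]
  · exfalso
    simp only [Sum.elim_inl, Sum.elim_inr, Xv, Yv] at h
    obtain ⟨h1, _⟩ := ed_inj n hD hn _ _ _ _ h
    unfold alv at h1
    cases e <;> simp at h1
  · exfalso
    simp only [Sum.elim_inl, Sum.elim_inr, Xv, Yv] at h
    obtain ⟨h1, _⟩ := ed_inj n hD hn _ _ _ _ h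
    unfold alv at h1
    cases e' <;> simp at h1
  · simp only [Sum.elim_inr, Yv] at h
    obtain ⟨h1, h2⟩ := ed_inj n hD hn _ _ _ _ h
    simp only [cl.injEq, Prod.mk.injEq, and_true] at h1 h2
    rw [Sum.inr.injEq, h1.1, idx_inj _ _ h1.2, idx_inj _ _ h2.2]

/-- arcs of another choice are arcs of this choice unless they are derivative arcs -/
theorem arc_change (c c' : Fin D × Bool → Fin (2 ^ l)) (x y : Vx D l B) (h : Arc c x y) :
    Arc c' x y ∨ ∃ b, x = cl (b, false) (c (b, false)) ∧ y = cl (b, true) (c (b, true)) := by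
  cases h with
  | right h i t t' ht => exact Or.inl (Arc.right h i t t' ht)
  | left h i t t' ht => exact Or.inl (Arc.left h i t t' ht)
  | inR h i t k hb ht => exact Or.inl (Arc.inR h i t k hb ht)
  | outR h i t k hb ht => exact Or.inl (Arc.outR h i t k hb ht)
  | inL h i t k hb ht => exact Or.inl (Arc.inL h i t k hb ht)
  | outL h i t k hb ht => exact Or.inl (Arc.outL h i t k hb ht)
  | hubIn b k => exact Or.inl (Arc.hubIn b k)
  | hubOut b k => exact Or.inl (Arc.hubOut b k)
  | y b => exact Or.inr ⟨b, rfl, rfl⟩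
  | port x y hx hy => exact Or.inl (Arc.port x y hx hy)

theorem three_card (h3 : 3 * cd D l B ≤ n) (hD : 0 < D) : 3 ≤ n := by
  have : 2 * D ≤ cd D l B := Nat.le_add_left _ _
  omega

theorem three_vx (hD : 0 < D) : ∃ x y z : Vx D l B, x ≠ y ∧ y ≠ z ∧ x ≠ z := by
  refine ⟨hub ⟨0, hD⟩ false, hub ⟨0, hD⟩ true, cl (⟨0, hD⟩, false) ⟨0, by positivity⟩, ?_, ?_, ?_⟩ <;>
    simp

/-- first hypothesis of the machine -/
theorem h1_ham (hB : 1 ≤ B) (c : Fin D × Bool → Fin l → Bool) (S : Finset (Sym2 (Fin n)))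
    (hS : HamP n S)
    (hsub : ∀ e ∈ S, e ∈ Zv (l := l) (B := B) n hD hn ∨
      (∃ q : ((Fin D × Bool) × Fin l) × (Bool × Fin B), e = Xv n hD hn q) ∨
      ∃ b, e = Yv (B := B) n hD hn (b, c (b, false), c (b, true))) :
    (∀ h i (j : Fin B), Xv n hD hn ((h, i), (c h i, j)) ∈ S) ∧
    ∀ b, Yv (B := B) n hD hn (b, c (b, false), c (b, true)) ∈ S := by
  classical
  have hn3 := three_card n hn hD
  obtain ⟨σ, hσ, hadj⟩ := exists_perm_of_isHamiltonian (by rw [Fintype.card_fin]; exact hn3) hS
  set φ := phi n hD hn with hφ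
  set c' : Fin D × Bool → Fin (2 ^ l) := fun h => idx (c h) with hc'
  set σ' : Equiv.Perm (Σ x : Vx D l B, Fin (ln n hD x)) := (φ.trans σ).trans φ.symm with hσ'
  have hσ'c : σ'.IsCycleOn Set.univ := by
    refine ⟨Set.bijOn_univ.2 σ'.bijective, ?_⟩
    intro u _ v _
    obtain ⟨i, hi⟩ := hσ.2 (Set.mem_univ (φ u)) (Set.mem_univ (φ v))
    refine ⟨i, ?_⟩
    have key : ∀ (i : ℤ) (u), φ ((σ' ^ i) u) = (σ ^ i) (φ u) := by
      intro i
      induction i using Int.induction_on with
      | zero => intro u; simp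
      | succ i ih =>
        intro u
        rw [zpow_add, zpow_add, Equiv.Perm.mul_apply, Equiv.Perm.mul_apply, ih]
        simp [hσ']
      | pred i ih =>
        intro u
        rw [sub_eq_add_neg, zpow_add, zpow_add, Equiv.Perm.mul_apply, Equiv.Perm.mul_apply, ih]
        congr 1
        rw [zpow_neg_one, zpow_neg_one]
        change φ (σ'.symm u) = σ.symm (φ u)
        simp [hσ']
    apply φ.injective
    rw [key, hi]
  have hcardU : 3 ≤ Fintype.card (Σ x : Vx D l B, Fin (ln n hD x)) := by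
    rw [Fintype.card_congr φ, Fintype.card_fin]; exact hn3
  have hsq := sq_ne hσ'c hcardU
  obtain ⟨s, hsA, hs2, hsE⟩ := exists_succ (ln_ge n hD) (Arc c')
    (fun u v => s(φ u, φ v) ∈ S ∧ u ≠ v)
    (by
      rintro u v ⟨he, hne⟩
      rcases hsub _ he with hz | ⟨⟨p, e, j⟩, hx⟩ | ⟨b, hy⟩
      · unfold Zv at hz
        rw [Finset.mem_filter] at hz
        obtain ⟨_, _, hzY, hz⟩ := hz
        rcases hz with ⟨u', v', hin, heq⟩ | ⟨c2, x, y, harc, heq⟩
        · rw [Sym2.eq_iff] at heq
          rcases heq with ⟨e1, e2⟩ | ⟨e1, e2⟩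
          · rw [φ.injective e1, φ.injective e2]; exact Or.inl hin
          · rw [φ.injective e1, φ.injective e2]; exact Or.inr (Or.inl hin)
        · have harc' : Arc c' x y := by
            rcases arc_change c2 c' x y harc with h | ⟨b, hx, hy⟩
            · exact h
            · exfalso
              apply hzY
              obtain ⟨a, ha⟩ := idx_surj (c2 (b, false))
              obtain ⟨a', ha'⟩ := idx_surj (c2 (b, true))
              refine ⟨(b, a, a'), ?_⟩
              rw [heq, hx, hy, ← ha, ← ha']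
              rfl
          unfold ed at heq
          rw [Sym2.eq_iff] at heq
          rcases heq with ⟨e1, e2⟩ | ⟨e1, e2⟩
          · exact Or.inr (Or.inr (Or.inl ⟨x, y, φ.injective e1, φ.injective e2, harc'⟩))
          · exact Or.inr (Or.inr (Or.inr ⟨x, y, φ.injective e2, φ.injective e1, harc'⟩))
      · have harc := alv_arc c' p e j
        unfold Xv ed at hx
        rw [Sym2.eq_iff] at hx
        rcases hx with ⟨e1, e2⟩ | ⟨e1, e2⟩
        · exact Or.inr (Or.inr (Or.inl ⟨_, _, φ.injective e1, φ.injective e2, harc⟩))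
        · exact Or.inr (Or.inr (Or.inr ⟨_, _, φ.injective e2, φ.injective e1, harc⟩))
      · have harc : Arc (B := B) c' (cl (b, false) (c' (b, false))) (cl (b, true) (c' (b, true))) :=
          Arc.y b
        unfold Yv ed at hy
        rw [Sym2.eq_iff] at hy
        rcases hy with ⟨e1, e2⟩ | ⟨e1, e2⟩
        · exact Or.inr (Or.inr (Or.inl ⟨_, _, φ.injective e1, φ.injective e2, harc⟩))
        · exact Or.inr (Or.inr (Or.inr ⟨_, _, φ.injective e2, φ.injective e1, harc⟩)))
    (by
      rintro u v ⟨he, hne⟩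
      exact ⟨by rw [Sym2.eq_swap]; exact he, hne.symm⟩)
    σ' hsq
    (by
      intro u
      have h := hadj (φ u)
      rw [SimpleGraph.fromEdgeSet_adj] at h
      have e : φ (σ' u) = σ (φ u) := by simp [hσ']
      refine ⟨by rw [e]; exact h.1, fun h' => h.2 ?_⟩
      rw [← e, ← h'])
    (three_vx hD) hσ'c
  constructor
  · intro h i j
    have hf := forced_alive c' s hB hsA hs2 h i j.1 j.2
    have hbit : bit (c' h) i = c h i := bit_idx _ _
    rw [hbit] at hf
    unfold Xv alv
    cases hci : c h i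
    · obtain ⟨q, hq⟩ := hf.1 hci
      have := (hsE (row h i ⟨j.1, by omega⟩)).1
      rw [hq] at this
      simpa [ed] using this
    · obtain ⟨q, hq⟩ := hf.2 hci
      have := (hsE (row h i ⟨j.1 + 1, q⟩)).1
      rw [hq] at this
      simpa [ed] using this
  · intro b
    have hf := (forced c' s hB hsA hs2 b).1
    have := (hsE (cl (b, false) (c' (b, false)))).1
    rw [hf] at this
    exact this

/-- second hypothesis of the machine -/
theorem h2_ham (hB : 1 ≤ B) (c : Fin D × Bool → Fin l → Bool) :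
    ∃ S : Finset (Sym2 (Fin n)), HamP n S ∧ ∀ e ∈ S, e ∈ Zv (l := l) (B := B) n hD hn ∨
      (∃ h i, ∃ j : Fin B, e = Xv n hD hn ((h, i), (c h i, j))) ∨
      ∃ b, e = Yv (B := B) n hD hn (b, c (b, false), c (b, true)) := by
  classical
  have hn3 := three_card n hn hD
  set φ := phi n hD hn with hφ
  set c' : Fin D × Bool → Fin (2 ^ l) := fun h => idx (c h) with hc'
  obtain ⟨L, hne, hnd, hall, hch, hcl⟩ := exists_list (B := B) hD c'
  set s : Equiv.Perm (Vx D l B) := L.formPerm with hs
  have hsA : ∀ x, Arc c' x (s x) := formPerm_rel (Arc c') L hnd hne hall hch hcl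
  have hcard : 3 ≤ Fintype.card (Vx D l B) := by
    obtain ⟨x, y, z, hxy, hyz, hxz⟩ := three_vx (l := l) (B := B) hD
    have : ({x, y, z} : Finset (Vx D l B)).card = 3 := by
      rw [Finset.card_insert_of_notMem (by simp [hxy, hxz]),
        Finset.card_insert_of_notMem (by simp [hyz]), Finset.card_singleton]
    rw [← this]
    exact Finset.card_le_univ _
  have hsc : s.IsCycleOn Set.univ := by
    have := hnd.isCycleOn_formPerm
    convert this
    ext v
    simp [hall v]
  have hs2 := sq_ne hsc hcard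
  obtain ⟨M, hMne, hMnd, hMall, hMch, hMcl⟩ := expand_list (ln_ge n hD) (fun x y => s x = y) L hne
    hnd hall (formPerm_chain L hnd) (formPerm_close L hnd hne)
  set S : Finset (Sym2 (Fin n)) := Finset.univ.filter fun e =>
    (∃ u v : Σ x : Vx D l B, Fin (ln n hD x), Inn u v ∧ e = s(φ u, φ v)) ∨
      ∃ x : Vx D l B, e = ed n hD hn x (s x) with hS
  have hQ : ∀ u v, QR (ln_ge n hD) (fun x y => s x = y) u v →
      (SimpleGraph.fromEdgeSet (S : Set (Sym2 (Fin n)))).Adj (φ u) (φ v) := by
    intro u v huv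
    rw [SimpleGraph.fromEdgeSet_adj]
    rcases huv with h | ⟨x, y, rfl, rfl, hxy⟩
    · constructor
      · rw [Finset.mem_coe, hS, Finset.mem_filter]
        exact ⟨Finset.mem_univ _, Or.inl ⟨u, v, h, rfl⟩⟩
      · intro e
        have e := φ.injective e
        have := h.2
        rw [e] at this
        omega
    · constructor
      · rw [Finset.mem_coe, hS, Finset.mem_filter]
        exact ⟨Finset.mem_univ _, Or.inr ⟨x, by rw [hxy]; rfl⟩⟩
      · intro e
        exact lst_ne_fst n hD x y (φ.injective e)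
  refine ⟨S, ?_, ?_⟩
  · refine isHamiltonian_of_list (M.map φ) (by simpa using hMne) ?_ ?_ ?_ ?_ ?_
    · exact hMnd.map φ.injective
    · intro v
      rw [List.mem_map]
      exact ⟨φ.symm v, hMall _, by simp⟩
    · rw [List.isChain_map]
      exact hMch.imp hQ
    · rw [List.getLast_map, List.head_map]
      exact hQ _ _ hMcl
    · rw [Fintype.card_fin]; exact hn3
  · intro e he
    rw [hS, Finset.mem_filter] at he
    rcases he.2 with ⟨u, v, huv, rfl⟩ | ⟨x, rfl⟩
    · left
      unfold Zv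
      rw [Finset.mem_filter]
      refine ⟨Finset.mem_univ _, ?_, ?_, Or.inl ⟨u, v, huv, rfl⟩⟩
      · rintro ⟨q, hq⟩
        exact inn_ne_ed n hD hn u v huv _ _ hq.symm
      · rintro ⟨q, hq⟩
        exact inn_ne_ed n hD hn u v huv _ _ hq.symm
    · by_cases hX : ed n hD hn x (s x) ∈ Set.range (Xv (D := D) (l := l) (B := B) n hD hn)
      · right; left
        obtain ⟨⟨⟨h, i⟩, e, j⟩, hq⟩ := hX
        refine ⟨h, i, j, ?_⟩
        have hci : c h i = e := by
          have hf := forced_alive c' s hB hsA hs2 h i j.1 j.2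
          have hbit : bit (c' h) i = c h i := bit_idx _ _
          rw [hbit] at hf
          obtain ⟨e1, e2⟩ := ed_inj n hD hn _ _ _ _ hq
          unfold alv at e1 e2
          cases e
          · simp only [if_true] at e1 e2
            by_contra hcon
            have hcon : c h i = true := by simpa using hcon
            refine not_Rt_Lt s hs2 h i j.1 ⟨by have := j.2; unfold T; omega, ?_⟩ (hf.2 hcon)
            rw [← e1] at e2
            exact e2.symm
          · simp only [Bool.true_eq_false, if_false] at e1 e2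
            by_contra hcon
            have hcon : c h i = false := by simpa using hcon
            refine not_Rt_Lt s hs2 h i j.1 (hf.1 hcon) ⟨by have := j.2; unfold T; omega, ?_⟩
            rw [← e1] at e2
            exact e2.symm
        rw [hci]
        exact hq.symm
      · by_cases hY : ed n hD hn x (s x) ∈ Set.range (Yv (D := D) (l := l) (B := B) n hD hn)
        · right; right
          obtain ⟨⟨b, a, a'⟩, hq⟩ := hY
          refine ⟨b, ?_⟩
          obtain ⟨e1, e2⟩ := ed_inj n hD hn _ _ _ _ hq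
          have harc := hsA x
          rw [← e2, ← e1] at harc
          simp only at harc
          generalize hk1 : idx a = k1 at harc
          generalize hk2 : idx a' = k2 at harc
          have : k1 = c' (b, false) ∧ k2 = c' (b, true) := by
            cases harc with
            | y _ => exact ⟨rfl, rfl⟩
            | port _ _ hx _ => exact hx.elim
          rw [← hk1, ← hk2] at this
          have ea := idx_inj _ _ this.1
          have ea' := idx_inj _ _ this.2
          rw [← hq, ea, ea']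
        · left
          unfold Zv
          rw [Finset.mem_filter]
          exact ⟨Finset.mem_univ _, hX, hY, Or.inr ⟨c', x, s x, hsA x, rfl⟩⟩

end

end Pool.HAM
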