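import Pool.Agent.Helper10.HAM.Gen
import Pool.Agent.Helper91.HN.Num5

/-! # Arbitrary tests for Hamiltonicity: the exact case -/

set_option autoImplicit false

namespace Pool.HAM

open MvPolynomial Pool.Agent.Helper76.CDET

/-- removing the loops, arbitrary polynomials -/
theorem loopfree_any {F Ya : Type} [Field F] {n r : ℕ} (f : MvPolynomial (Sym2 (Fin n) ⊕ Ya) F)
    (s : Fin r → ℕ)
    (A : ∀ i, Matrix (Fin (s i)) (Fin (s i)) (MvPolynomial (Sym2 (Fin n) ⊕ Ya) F))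
    (hA : ∀ i p q, ∀ μ ∈ (A i p q).support, ∑ e, μ (Sum.inl e) ≤ 1)
    (hf : f = ∑ i, (A i).det) :
    ∃ A' : ∀ i, Matrix (Fin (s i)) (Fin (s i)) (MvPolynomial (Sym2 (Fin n) ⊕ Ya) F),
      (∀ i p q, ∀ μ ∈ (A' i p q).support, ∑ e, μ (Sum.inl e) ≤ 1) ∧
      restr (ND n) f = ∑ i, (A' i).det := by
  classical
  refine ⟨fun i => (A i).map (restrHom F Ya (ND n)), ?_, ?_⟩
  · intro i p q μ hμ
    have hμ' : μ ∈ (restr (ND n) (A i p q)).support := hμ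
    exact hA i p q μ (support_restr _ _ hμ')
  · rw [← restrHom_apply, hf, map_sum]
    refine Finset.sum_congr rfl fun i _ => ?_
    rw [AlgHom.map_det]
    rfl

/-- ARBITRARY TESTS, exact case -/
theorem undirected_any : ∃ c C : ℝ, 0 < c ∧ 0 < C ∧ ∀ (F Ya : Type) [Field F] (n m r : ℕ),
    3 ≤ n → ∀ (f : MvPolynomial (Sym2 (Fin n) ⊕ Ya) F),
    (∀ G : SimpleGraph (Fin n), restrictG G f ≠ 0 ↔ G.IsHamiltonian) →
    ∀ (s : Fin r → ℕ), (∀ i, s i ≤ m) →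
    ∀ (A : ∀ i, Matrix (Fin (s i)) (Fin (s i)) (MvPolynomial (Sym2 (Fin n) ⊕ Ya) F)),
    (∀ i p q, ∀ μ ∈ (A i p q).support, ∑ e, μ (Sum.inl e) ≤ 1) →
    f = ∑ i, (A i).det →
    n ≤ m ∧ Real.exp (c * n / (2 * ((m : ℝ) / n)) ^ (C * ((m : ℝ) / n))) ≤ 2 * r := by
  obtain ⟨c, C, hc, hC, hN⟩ := Pool.GTN.numericsGT 54 (by norm_num)
  refine ⟨c, C, hc, hC, ?_⟩
  intro F Ya _ n m r hn f hP s hs A hA hf
  obtain ⟨A', hA', hf'⟩ := loopfree_any f s A hA hf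
  have hP' : ∀ S : Finset (Sym2 (Fin n)), restr S (restr (ND n) f) ≠ 0 ↔ HamP n S := by
    intro S
    rw [restr_ND, hP]
    rfl
  have hnm := le_of_test hn _ hP' s hs A' hA' hf'
  refine ⟨hnm.1, hN n m r (by omega) hnm.1 hnm.2 ?_⟩
  intro D l B hD hl hB hcd q hq0 hq1
  exact undirected_general hn _ hP' s hs A' hA' hf' D l B hD hB hcd q hq0 hq1

end Pool.HAM
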