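import Mathlib

/-! # Hamiltonian graphs and cyclic permutations -/

namespace Pool.HAM

variable {V : Type*} [Fintype V] [DecidableEq V] {G : SimpleGraph V}

theorem isHamiltonian_of_list (L : List V) (hne : L ≠ []) (hnd : L.Nodup) (hall : ∀ v, v ∈ L)
    (hch : L.IsChain G.Adj) (hcl : G.Adj (L.getLast hne) (L.head hne))
    (h3 : 3 ≤ Fintype.card V) : G.IsHamiltonian := by
  intro _
  have hlen : L.length = Fintype.card V := by
    rw [← List.toFinset_card_of_nodup hnd]
    have : L.toFinset = Finset.univ := by
      ext v; simp [hall v]
    rw [this, Finset.card_univ]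
  have hlen2 : (SimpleGraph.Walk.ofSupport L hne hch).length + 1 = Fintype.card V := by
    rw [← SimpleGraph.Walk.length_support, SimpleGraph.Walk.support_ofSupport, hlen]
  have hpath : (SimpleGraph.Walk.ofSupport L hne hch).IsPath := by
    rw [SimpleGraph.Walk.isPath_def, SimpleGraph.Walk.support_ofSupport]
    exact hnd
  refine ⟨L.getLast hne, SimpleGraph.Walk.cons hcl (SimpleGraph.Walk.ofSupport L hne hch), ?_⟩
  rw [SimpleGraph.Walk.isHamiltonianCycle_iff_isCycle_and_length_eq]
  refine ⟨?_, by rw [SimpleGraph.Walk.length_cons, hlen2]⟩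
  rw [SimpleGraph.Walk.cons_isCycle_iff]
  refine ⟨hpath, fun hmem => ?_⟩
  rw [Sym2.eq_swap] at hmem
  have := hpath.length_eq_one_of_mem_edges hmem
  omega

theorem exists_perm_of_isHamiltonian (h3 : 3 ≤ Fintype.card V) (hG : G.IsHamiltonian) :
    ∃ σ : Equiv.Perm V, σ.IsCycleOn Set.univ ∧ ∀ x, G.Adj x (σ x) := by
  obtain ⟨a, p, hp⟩ := hG (by omega)
  have hnn : ¬ p.Nil := hp.isCycle.not_nil
  have hnd : p.support.tail.Nodup := hp.isCycle.support_nodup
  have hall : ∀ v, v ∈ p.support.tail := by
    intro v
    have := hp.isHamiltonian_tail.mem_support v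
    rwa [SimpleGraph.Walk.support_tail_of_not_nil p hnn] at this
  have hch : p.support.IsChain G.Adj := p.isChain_adj_support
  refine ⟨p.support.tail.formPerm, ?_, ?_⟩
  · have := hnd.isCycleOn_formPerm
    convert this
    ext v
    simp [hall v]
  · intro x
    obtain ⟨i, hi, rfl⟩ := List.getElem_of_mem (hall x)
    rw [List.formPerm_apply_getElem _ hnd]
    have hlen : p.support.tail.length = p.length := by
      rw [List.length_tail, SimpleGraph.Walk.length_support]; rfl
    by_cases hi2 : i + 1 < p.support.tail.length
    · have e : (i + 1) % p.support.tail.length = i + 1 := Nat.mod_eq_of_lt hi2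
      simp only [e]
      exact List.isChain_iff_getElem.1 hch.tail i hi2
    · have e0 : i + 1 = p.support.tail.length := by omega
      have e : (i + 1) % p.support.tail.length = 0 := by rw [e0, Nat.mod_self]
      simp only [e]
      have hlen3 : p.support.length = p.length + 1 := SimpleGraph.Walk.length_support p
      have h1 : p.support.tail[i] = a := by
        rw [List.getElem_tail]
        have : p.support[i + 1]'(by omega) = p.support.getLast p.support_ne_nil := by
          rw [List.getLast_eq_getElem]
          congr 1
          rw [e0, List.length_tail]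
        rw [this, SimpleGraph.Walk.getLast_support]
      rw [h1]
      have h2 := List.isChain_iff_getElem.1 hch 0 (by
        rw [SimpleGraph.Walk.length_support]; rw [hlen] at hi; omega)
      rw [SimpleGraph.Walk.support_getElem_zero] at h2
      simpa using h2

end Pool.HAM
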