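import Mathlib

/-! # Hamiltonicity gadget: local analysis -/

namespace Pool.HAM

/-- length of row `i` -/
def T (B i : ℕ) : ℕ := B + 2 + 3 * 2 ^ (i + 1)

/-- vertices of the gadget. `row h i t`: the `t`-th vertex of row `i` of block `h`;
`cl h k`: clause vertices; `hub b false`, `hub b true`: entrance and exit of pair `b`. -/
inductive Vx (D l B : ℕ) : Type
  | row (h : Fin D × Bool) (i : Fin l) (t : Fin (T B i)) : Vx D l B
  | cl (h : Fin D × Bool) (k : Fin (2 ^ l)) : Vx D l B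
  | hub (b : Fin D) (e : Bool) : Vx D l B
deriving DecidableEq

open Vx

variable {D l B : ℕ}

/-- vertices from which one may leave to any entrance -/
def OutPort : Vx D l B → Prop
  | row _ i t => t.1 = 0 ∨ t.1 + 1 = T B i
  | cl _ _ => False
  | hub _ e => e = true

/-- vertices which may be entered from any exit -/
def InPort : Vx D l B → Prop
  | row _ i t => t.1 = 0 ∨ t.1 + 1 = T B i
  | cl _ _ => False
  | hub _ e => e = false

/-- the bits of an index -/
def bit (k : Fin (2 ^ l)) (i : Fin l) : Bool := k.1.testBit i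

/-- the number of the pair of clause `k` in row `i` -/
def ix (k : Fin (2 ^ l)) (i : Fin l) : ℕ := k.1 % 2 ^ (i.1 + 1)

theorem ix_lt (k : Fin (2 ^ l)) (i : Fin l) : ix k i < 2 ^ (i.1 + 1) :=
  Nat.mod_lt _ (by positivity)

theorem bit_of_ix {k k' : Fin (2 ^ l)} {i : Fin l} (h : ix k i = ix k' i) (j : Fin l)
    (hj : j ≤ i) : bit k j = bit k' j := by
  unfold ix at h
  have h1 : (k.1 % 2 ^ (i.1 + 1)).testBit j = (k'.1 % 2 ^ (i.1 + 1)).testBit j := by rw [h]
  rw [Nat.testBit_mod_two_pow, Nat.testBit_mod_two_pow] at h1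
  have h2 : j.1 < i.1 + 1 := Nat.lt_succ_of_le hj
  unfold bit
  simpa [h2] using h1

theorem bit_ext {k k' : Fin (2 ^ l)} (h : ∀ i, bit k i = bit k' i) : k = k' := by
  apply Fin.ext
  apply Nat.eq_of_testBit_eq
  intro i
  by_cases hi : i < l
  · exact h ⟨i, hi⟩
  · rw [Nat.testBit_lt_two_pow (lt_of_lt_of_le k.2 (Nat.pow_le_pow_right (by norm_num) (not_lt.1 hi))),
      Nat.testBit_lt_two_pow (lt_of_lt_of_le k'.2 (Nat.pow_le_pow_right (by norm_num) (not_lt.1 hi)))]

theorem bit_surj (e : Fin l → Bool) : ∃ k : Fin (2 ^ l), ∀ i, bit k i = e i := by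
  have hinj : Function.Injective (fun k : Fin (2 ^ l) => (fun i => bit k i : Fin l → Bool)) :=
    fun k k' h => bit_ext fun i => congrFun h i
  have hcard : Fintype.card (Fin (2 ^ l)) = Fintype.card (Fin l → Bool) := by simp
  have := (Fintype.bijective_iff_injective_and_card _).2 ⟨hinj, hcard⟩
  obtain ⟨k, hk⟩ := this.2 e
  exact ⟨k, fun i => congrFun hk i⟩

/-- arcs of the gadget for the choice `c` -/
inductive Arc (c : Fin D × Bool → Fin (2 ^ l)) : Vx D l B → Vx D l B → Prop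
  | right (h) (i : Fin l) (t t' : Fin (T B i)) (ht : t'.1 = t.1 + 1) : Arc c (row h i t) (row h i t')
  | left (h) (i : Fin l) (t t' : Fin (T B i)) (ht : t.1 = t'.1 + 1) : Arc c (row h i t) (row h i t')
  | inR (h i t) (k : Fin (2 ^ l)) (hb : bit k i = true) (ht : t.1 = B + 1 + 3 * ix k i) :
      Arc c (row h i t) (cl h k)
  | outR (h i t) (k : Fin (2 ^ l)) (hb : bit k i = true) (ht : t.1 = B + 2 + 3 * ix k i) :
      Arc c (cl h k) (row h i t)
  | inL (h i t) (k : Fin (2 ^ l)) (hb : bit k i = false) (ht : t.1 = B + 2 + 3 * ix k i) :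
      Arc c (row h i t) (cl h k)
  | outL (h i t) (k : Fin (2 ^ l)) (hb : bit k i = false) (ht : t.1 = B + 1 + 3 * ix k i) :
      Arc c (cl h k) (row h i t)
  | hubIn (b k) : Arc c (hub b false) (cl (b, false) k)
  | hubOut (b k) : Arc c (cl (b, true) k) (hub b true)
  | y (b) : Arc c (cl (b, false) (c (b, false))) (cl (b, true) (c (b, true)))
  | port (x y) (hx : OutPort x) (hy : InPort y) : Arc c x y

section analysis

variable (c : Fin D × Bool → Fin (2 ^ l)) (s : Equiv.Perm (Vx D l B))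
  (hs : ∀ x, Arc c x (s x)) (h2 : ∀ x, s (s x) ≠ x)

/-- straight positions -/
def Straight (B i n : ℕ) : Prop :=
  (1 ≤ n ∧ n ≤ B) ∨ ∃ k, k < 2 ^ (i + 1) ∧ n = B + 3 + 3 * k

/-- the row is left from position `n` to the right -/
def Rt (s : Equiv.Perm (Vx D l B)) (h : Fin D × Bool) (i : Fin l) (n : ℕ) : Prop :=
  ∃ hn : n + 1 < T B i, s (row h i ⟨n, by omega⟩) = row h i ⟨n + 1, hn⟩

/-- the row is traversed from `n + 1` to `n` -/
def Lt (s : Equiv.Perm (Vx D l B)) (h : Fin D × Bool) (i : Fin l) (n : ℕ) : Prop :=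
  ∃ hn : n + 1 < T B i, s (row h i ⟨n + 1, hn⟩) = row h i ⟨n, by omega⟩

theorem not_Rt_Lt (h2 : ∀ x, s (s x) ≠ x) (h i n) (h1 : Rt s h i n) (h3 : Lt s h i n) : False := by
  obtain ⟨hn, h1⟩ := h1
  obtain ⟨_, h3⟩ := h3
  exact h2 (row h i ⟨n, by omega⟩) (by rw [h1, h3])

/-- out-neighbours of a row vertex -/
theorem out_row (hs : ∀ x, Arc c x (s x)) (h : Fin D × Bool) (i : Fin l) (t : Fin (T B i)) :
    (∃ hn : t.1 + 1 < T B i, s (row h i t) = row h i ⟨t.1 + 1, hn⟩) ∨
    (1 ≤ t.1 ∧ s (row h i t) = row h i ⟨t.1 - 1, by omega⟩) ∨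
    (∃ k : Fin (2 ^ l), bit k i = true ∧ t.1 = B + 1 + 3 * ix k i ∧ s (row h i t) = cl h k) ∨
    (∃ k : Fin (2 ^ l), bit k i = false ∧ t.1 = B + 2 + 3 * ix k i ∧ s (row h i t) = cl h k) ∨
    (t.1 = 0 ∨ t.1 + 1 = T B i) := by
  have H := hs (row h i t)
  generalize hy : s (row h i t) = y at H
  cases H with
  | right _ _ _ t' ht =>
    left
    refine ⟨by have := t'.2; omega, ?_⟩
    congr 1
    exact Fin.ext ht
  | left _ _ _ t' ht =>
    right; left
    refine ⟨by omega, ?_⟩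
    congr 1
    apply Fin.ext
    simp only
    omega
  | inR _ _ _ k hb ht => right; right; left; exact ⟨k, hb, ht, rfl⟩
  | inL _ _ _ k hb ht => right; right; right; left; exact ⟨k, hb, ht, rfl⟩
  | port _ _ hx _ => right; right; right; right; exact hx

/-- in-neighbours of a row vertex -/
theorem in_row (hs : ∀ x, Arc c x (s x)) (h : Fin D × Bool) (i : Fin l)
    (t : Fin (T B i)) (x : Vx D l B) (hx : s x = row h i t) :
    (∃ hn : t.1 + 1 < T B i, x = row h i ⟨t.1 + 1, hn⟩) ∨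
    (1 ≤ t.1 ∧ x = row h i ⟨t.1 - 1, by omega⟩) ∨
    (∃ k : Fin (2 ^ l), bit k i = true ∧ t.1 = B + 2 + 3 * ix k i ∧ x = cl h k) ∨
    (∃ k : Fin (2 ^ l), bit k i = false ∧ t.1 = B + 1 + 3 * ix k i ∧ x = cl h k) ∨
    (t.1 = 0 ∨ t.1 + 1 = T B i) := by
  have H := hs x
  rw [hx] at H
  cases H with
  | right _ _ t' _ ht =>
    right; left
    refine ⟨by omega, ?_⟩
    congr 1
    apply Fin.ext
    simp only
    omega
  | left _ _ t' _ ht =>
    left
    refine ⟨by have := t'.2; omega, ?_⟩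
    congr 1
    exact Fin.ext ht
  | outR _ _ _ k hb ht => right; right; left; exact ⟨k, hb, ht, rfl⟩
  | outL _ _ _ k hb ht => right; right; right; left; exact ⟨k, hb, ht, rfl⟩
  | port _ _ _ hy => right; right; right; right; exact hy

/-- straight vertices are passed straight -/
theorem straight (hs : ∀ x, Arc c x (s x)) (h2 : ∀ x, s (s x) ≠ x) (h : Fin D × Bool)
    (i : Fin l) (n : ℕ) (hn : Straight B i (n + 1)) :
    (Rt s h i n ∧ Rt s h i (n + 1)) ∨ (Lt s h i n ∧ Lt s h i (n + 1)) := by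
  have hpos : 0 < 2 ^ (i.1 + 1) := by positivity
  have hn1 : n + 2 < T B i := by
    unfold T
    rcases hn with h | ⟨k, hk, h⟩ <;> omega
  have hfin : ¬ (n + 1 = 0 ∨ n + 1 + 1 = T B i) := by omega
  have hk1 : ∀ k, ¬ (n + 1 = B + 1 + 3 * k) := by
    intro k
    rcases hn with h | ⟨k, hk, h⟩ <;> omega
  have hk2 : ∀ k, ¬ (n + 1 = B + 2 + 3 * k) := by
    intro k
    rcases hn with h | ⟨k, hk, h⟩ <;> omega
  set t : Fin (T B i) := ⟨n + 1, by omega⟩ with ht
  obtain ⟨x, hx⟩ := s.surjective (row h i t)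
  have hin := in_row c s hs h i t x hx
  have hout := out_row c s hs h i t
  have hin' : x = row h i ⟨n + 2, hn1⟩ ∨ x = row h i ⟨n, by omega⟩ := by
    rcases hin with ⟨_, h⟩ | ⟨_, h⟩ | ⟨k, _, h, _⟩ | ⟨k, _, h, _⟩ | h
    · left; rw [h]
    · right; rw [h]; rfl
    · exact absurd h (hk2 _)
    · exact absurd h (hk1 _)
    · exact absurd h hfin
  have hout' : s (row h i t) = row h i ⟨n + 2, hn1⟩ ∨ s (row h i t) = row h i ⟨n, by omega⟩ := by
    rcases hout with ⟨_, h⟩ | ⟨_, h⟩ | ⟨k, _, h, _⟩ | ⟨k, _, h, _⟩ | h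
    · left; rw [h]
    · right; rw [h]; rfl
    · exact absurd h (hk1 _)
    · exact absurd h (hk2 _)
    · exact absurd h hfin
  rcases hin' with h1 | h1
  · right
    rcases hout' with h3 | h3
    · exfalso
      apply h2 x
      rw [hx, h3, h1]
    · exact ⟨⟨by omega, h3⟩, ⟨hn1, by rw [← h1, hx]⟩⟩
  · left
    rcases hout' with h3 | h3
    · exact ⟨⟨by omega, by rw [← h1, hx]⟩, ⟨hn1, h3⟩⟩
    · exfalso
      apply h2 x
      rw [hx, h3, h1]

end analysis

end Pool.HAM
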