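import Pool.Agent.Helper10.HAM.Main
import Pool.Agent.Helper10.GT.FinalBits

/-! # Arbitrary tests for Hamiltonicity: undirected graphs -/

set_option autoImplicit false

namespace Pool.HAM

open MvPolynomial Pool.Agent.Helper76.CDET

/-- permutations act on pairs -/
instance symAct (n : ℕ) : MulAction (Equiv.Perm (Fin n)) (Sym2 (Fin n)) where
  smul σ e := Sym2.map σ e
  one_smul e := by
    change Sym2.map (1 : Equiv.Perm (Fin n)) e = e
    rw [Equiv.Perm.coe_one, Sym2.map_id]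
    rfl
  mul_smul σ τ e := by
    change Sym2.map (σ * τ : Equiv.Perm (Fin n)) e = Sym2.map σ (Sym2.map τ e)
    rw [Equiv.Perm.coe_mul, Sym2.map_comp]
    rfl

theorem smul_mk {n : ℕ} (σ : Equiv.Perm (Fin n)) (a b : Fin n) : σ • s(a, b) = s(σ a, σ b) := rfl

/-- invariance -/
theorem hamP_smul {n : ℕ} (g : Equiv.Perm (Fin n)) (S : Finset (Sym2 (Fin n)))
    (hS : HamP n S) : HamP n (S.image fun e => g • e) := by
  classical
  unfold HamP at hS ⊢
  intro hc
  obtain ⟨a, p, hp⟩ := hS hc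
  let F : SimpleGraph.fromEdgeSet (S : Set (Sym2 (Fin n))) →g
      SimpleGraph.fromEdgeSet ((S.image fun e => g • e : Finset _) : Set (Sym2 (Fin n))) :=
    { toFun := g
      map_rel' := by
        intro u v huv
        rw [SimpleGraph.fromEdgeSet_adj] at huv ⊢
        refine ⟨?_, fun h => huv.2 (g.injective h)⟩
        rw [Finset.mem_coe, Finset.mem_image]
        exact ⟨s(u, v), huv.1, rfl⟩ }
  exact ⟨_, p.map F, hp.map (f := F) g.bijective⟩

/-- a cyclic permutation gives a Hamiltonian cycle -/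
theorem hamP_of_perm {n : ℕ} (hn : 3 ≤ n) (τ : Equiv.Perm (Fin n)) (hτ : τ.IsCycleOn Set.univ)
    (S : Finset (Sym2 (Fin n))) (hS : ∀ v, s(v, τ v) ∈ S) : HamP n S := by
  classical
  have h3 : 3 ≤ Fintype.card (Fin n) := by rw [Fintype.card_fin]; exact hn
  have hτ' : τ.IsCycleOn ((Finset.univ : Finset (Fin n)) : Set (Fin n)) := by
    rw [Finset.coe_univ]; exact hτ
  have hcard : (Finset.univ : Finset (Fin n)).card = n := by simp
  set v0 : Fin n := ⟨0, by omega⟩ with hv0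
  have hne : ∀ v, v ≠ τ v := by
    intro v h
    have h2 := sq_ne hτ h3 v
    rw [← h, ← h] at h2
    exact h2 rfl
  have hadj : ∀ v, (SimpleGraph.fromEdgeSet (S : Set (Sym2 (Fin n)))).Adj v (τ v) := by
    intro v
    rw [SimpleGraph.fromEdgeSet_adj]
    exact ⟨hS v, hne v⟩
  have hLne : List.ofFn (fun i : Fin n => (τ ^ (i : ℕ)) v0) ≠ [] := by
    intro h
    have := congrArg List.length h
    rw [List.length_ofFn] at this
    simp at this
    omega
  refine isHamiltonian_of_list (List.ofFn fun i : Fin n => (τ ^ (i : ℕ)) v0) hLne ?_ ?_ ?_ ?_ h3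
  · rw [List.nodup_ofFn]
    intro i j hij
    have h := (hτ'.pow_apply_eq_pow_apply (Finset.mem_univ v0)).1 hij
    rw [hcard] at h
    exact Fin.ext (Nat.ModEq.eq_of_lt_of_lt h i.2 j.2)
  · intro v
    obtain ⟨i, hi, hiv⟩ := hτ'.exists_pow_eq (Finset.mem_univ v0) (Finset.mem_univ v)
    rw [hcard] at hi
    rw [List.mem_ofFn]
    exact ⟨⟨i, hi⟩, hiv⟩
  · rw [List.isChain_ofFn]
    intro i hi
    have : (τ ^ (i + 1)) v0 = τ ((τ ^ i) v0) := by
      rw [pow_succ', Equiv.Perm.mul_apply]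
    simp only
    rw [this]
    exact hadj _
  · have h1 : (List.ofFn fun i : Fin n => (τ ^ (i : ℕ)) v0).getLast hLne = (τ ^ (n - 1)) v0 := by
      rw [List.getLast_eq_getElem, List.getElem_ofFn]
      simp
    have h2 : (List.ofFn fun i : Fin n => (τ ^ (i : ℕ)) v0).head hLne = v0 := by
      rw [List.head_eq_getElem, List.getElem_ofFn]
      simp
    have h4 : τ ((τ ^ (n - 1)) v0) = v0 := by
      rw [← Equiv.Perm.mul_apply, ← pow_succ']
      have h5 : n - 1 + 1 = n := by omega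
      rw [h5]
      have := hτ'.pow_card_apply (Finset.mem_univ v0)
      rwa [hcard] at this
    rw [h1, h2]
    have := hadj ((τ ^ (n - 1)) v0)
    rwa [h4] at this

/-- every Hamiltonian graph contains a minimal one, with a transitive stabilizer -/
theorem exists_minimal {n : ℕ} (hn : 3 ≤ n) (S : Finset (Sym2 (Fin n))) (hS : HamP n S) :
    ∃ S' ⊆ S, HamP n S' ∧ (∀ T ⊆ S', HamP n T → T = S') ∧ S'.card = n ∧
      ∀ e ∈ S', ∀ e' ∈ S', ∃ h : Equiv.Perm (Fin n),
        (S'.image fun x => h • x) = S' ∧ h • e = e' := by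
  classical
  have h3 : 3 ≤ Fintype.card (Fin n) := by rw [Fintype.card_fin]; exact hn
  obtain ⟨τ, hτ, hadj⟩ := exists_perm_of_isHamiltonian h3 hS
  have hinj : Function.Injective fun v => s(v, τ v) := by
    intro v w h
    simp only [Sym2.eq_iff] at h
    rcases h with ⟨h, _⟩ | ⟨h1, h2⟩
    · exact h
    · exfalso
      apply sq_ne hτ h3 v
      rw [h2, ← h1]
  set S' : Finset (Sym2 (Fin n)) := Finset.univ.image fun v => s(v, τ v) with hS'
  have hcard : S'.card = n := by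
    rw [hS', Finset.card_image_of_injective _ hinj, Finset.card_univ, Fintype.card_fin]
  refine ⟨S', ?_, hamP_of_perm hn τ hτ S' ?_, ?_, hcard, ?_⟩
  · intro e he
    obtain ⟨v, _, rfl⟩ := Finset.mem_image.1 he
    have := hadj v
    rw [SimpleGraph.fromEdgeSet_adj] at this
    exact this.1
  · intro v
    exact Finset.mem_image.2 ⟨v, Finset.mem_univ _, rfl⟩
  · intro T hT hPT
    exact Finset.eq_of_subset_of_card_le hT (by rw [hcard]; exact card_of_hamP hn T hPT)
  · intro e he e' he'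
    obtain ⟨v, _, rfl⟩ := Finset.mem_image.1 he
    obtain ⟨w, _, rfl⟩ := Finset.mem_image.1 he'
    obtain ⟨i, hi⟩ := hτ.2 (Set.mem_univ v) (Set.mem_univ w)
    have hcomm : ∀ u, (τ ^ i) (τ u) = τ ((τ ^ i) u) := by
      intro u
      rw [← Equiv.Perm.mul_apply, ← Equiv.Perm.mul_apply]
      congr 1
      exact ((Commute.refl τ).zpow_left i).eq
    refine ⟨τ ^ i, ?_, ?_⟩
    · ext e
      rw [Finset.mem_image]
      constructor
      · rintro ⟨x, hx, rfl⟩
        obtain ⟨u, _, rfl⟩ := Finset.mem_image.1 hx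
        rw [smul_mk, hcomm]
        exact Finset.mem_image.2 ⟨_, Finset.mem_univ _, rfl⟩
      · intro hx
        obtain ⟨u, _, rfl⟩ := Finset.mem_image.1 hx
        refine ⟨s((τ ^ i).symm u, τ ((τ ^ i).symm u)),
          Finset.mem_image.2 ⟨_, Finset.mem_univ _, rfl⟩, ?_⟩
        rw [smul_mk, hcomm, Equiv.apply_symm_apply]
    · rw [smul_mk, hcomm, hi]

/-- the inequality for arbitrary tests -/
theorem undirected_general {F Ya : Type} [Field F] {n m r : ℕ} (hn : 3 ≤ n)
    (f : MvPolynomial (Sym2 (Fin n) ⊕ Ya) F) (hP : ∀ S, restr S f ≠ 0 ↔ HamP n S)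
    (s : Fin r → ℕ) (hs : ∀ i, s i ≤ m)
    (A : ∀ i, Matrix (Fin (s i)) (Fin (s i)) (MvPolynomial (Sym2 (Fin n) ⊕ Ya) F))
    (hA : ∀ i p q, ∀ μ ∈ (A i p q).support, ∑ e, μ (Sum.inl e) ≤ 1)
    (hf : f = ∑ i, (A i).det) (D l B : ℕ) (hD : 1 ≤ D) (hB : 1 ≤ B)
    (hcd : 54 * (D * (l * B + 2 ^ l)) ≤ n) (q : ℝ) (hq0 : 0 < q) (hq1 : q < 1) :
    (2 - 2 * q ^ B) ^ (2 * D * l) ≤ 2 * ((2 * (D * m) / n : ℕ) + 1) * (r *
      (∑ j ∈ Finset.range (2 * (D * m) / n + 1), (m * (1 - q)) ^ j / (j.factorial : ℝ)) ^ 2) := by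
  classical
  have hcd' : 3 * cd D l B ≤ n := by
    have := cd_le D l B
    omega
  refine Pool.GT.general_bits (Γ := Equiv.Perm (Fin n)) f (HamP n) hP
    (fun g S hS => hamP_smul g S hS) (Xv n hD hcd') (Yv n hD hcd') (Zv n hD hcd')
    (inj_XY n hD hcd') ?_ ?_ ?_ (by omega) ?_ s hs A hA hf q hq0 hq1
  · intro x hx
    unfold Zv at hx
    rw [Finset.mem_filter] at hx
    exact hx.2.1 ⟨x, rfl⟩
  · intro y hy
    unfold Zv at hy
    rw [Finset.mem_filter] at hy
    exact hy.2.2.1 ⟨y, rfl⟩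
  · intro c S hS hsub
    exact h1_ham n hD hcd' hB c S hS hsub
  · intro c
    obtain ⟨S, hS, hS2⟩ := h2_ham n hD hcd' hB c
    obtain ⟨S', hsub, hPS', hmin, hcard, htr⟩ := exists_minimal hn S hS
    exact ⟨S', hPS', fun e he => hS2 e (hsub he), hmin, hcard, htr⟩

end Pool.HAM
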