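import Pool.Agent.Helper10.HAM.Gadget

/-! # Hamiltonicity gadget: local analysis, second part -/

namespace Pool.HAM

open Vx

variable {D l B : ℕ}
variable (c : Fin D × Bool → Fin (2 ^ l)) (s : Equiv.Perm (Vx D l B))

/-- the two buffers around a pair have the same direction -/
theorem pair (hB : 1 ≤ B) (hs : ∀ x, Arc c x (s x)) (h2 : ∀ x, s (s x) ≠ x)
    (h : Fin D × Bool) (i : Fin l) (k : ℕ) (hk : k < 2 ^ (i.1 + 1)) :
    (Rt s h i (B + 3 * k) ∧ Rt s h i (B + 2 + 3 * k)) ∨
    (Lt s h i (B + 3 * k) ∧ Lt s h i (B + 2 + 3 * k)) := by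
  have hT : B + 3 * k + 4 < T B i + 1 := by unfold T; omega
  have hl : Rt s h i (B + 3 * k) ∨ Lt s h i (B + 3 * k) := by
    have hst : Straight B i (B + 3 * k) := by
      rcases k with _ | k
      · left; omega
      · right; exact ⟨k, by omega, by omega⟩
    obtain ⟨m, hm⟩ : ∃ m, B + 3 * k = m + 1 := ⟨B + 3 * k - 1, by omega⟩
    rw [hm] at hst ⊢
    rcases straight c s hs h2 h i m hst with h | h
    · exact Or.inl h.2
    · exact Or.inr h.2
  have hr : Rt s h i (B + 2 + 3 * k) ∨ Lt s h i (B + 2 + 3 * k) := by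
    have hst : Straight B i (B + 2 + 3 * k + 1) := Or.inr ⟨k, hk, by omega⟩
    rcases straight c s hs h2 h i _ hst with h | h
    · exact Or.inl h.1
    · exact Or.inr h.1
  have fin : ∀ k1 k2 : Fin (2 ^ l), bit k1 i = false → ix k1 i = k → bit k2 i = true →
      ix k2 i = k → False := by
    intro k1 k2 b1 f1 b2 f2
    have := bit_of_ix (f1.trans f2.symm) i le_rfl
    rw [b1, b2] at this
    exact absurd this (by simp)
  rcases hl with hl | hl <;> rcases hr with hr | hr
  · exact Or.inl ⟨hl, hr⟩
  · exfalso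
    obtain ⟨q1, e1⟩ := hl
    obtain ⟨q2, e2⟩ := hr
    -- s (B+3k) = B+3k+1 , s (B+3k+3) = B+3k+2
    have o1 := out_row c s hs h i ⟨B + 2 + 3 * k, by omega⟩
    have o2 := out_row c s hs h i ⟨B + 3 * k + 1, q1⟩
    have p1 : ∃ k' : Fin (2 ^ l), bit k' i = false ∧ ix k' i = k := by
      rcases o1 with ⟨hn, e⟩ | ⟨_, e⟩ | ⟨k', _, e, _⟩ | ⟨k', hb, e, _⟩ | e
      · exact absurd (by rw [e2, e]) (h2 (row h i ⟨B + 2 + 3 * k + 1, q2⟩))
      · exfalso
        have : s (row h i ⟨B + 2 + 3 * k, by omega⟩) = s (row h i ⟨B + 3 * k, by omega⟩) := by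
          rw [e1, e]
          congr 1
          apply Fin.ext
          simp only
          omega
        have := s.injective this
        simp only [row.injEq, heq_eq_eq, Fin.mk.injEq, true_and] at this
        omega
      · simp only at e; omega
      · simp only at e; exact ⟨k', hb, by omega⟩
      · simp only at e; omega
    have p2 : ∃ k' : Fin (2 ^ l), bit k' i = true ∧ ix k' i = k := by
      rcases o2 with ⟨hn, e⟩ | ⟨_, e⟩ | ⟨k', hb, e, _⟩ | ⟨k', _, e, _⟩ | e
      · exfalso
        have : s (row h i ⟨B + 3 * k + 1, q1⟩) = s (row h i ⟨B + 2 + 3 * k + 1, q2⟩) := by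
          rw [e2, e]
          congr 1
          apply Fin.ext
          simp only
          omega
        have := s.injective this
        simp only [row.injEq, heq_eq_eq, Fin.mk.injEq, true_and] at this
        omega
      · exact (h2 (row h i ⟨B + 3 * k, by omega⟩) (by rw [e1, e]; rfl)).elim
      · simp only at e; exact ⟨k', hb, by omega⟩
      · simp only at e; omega
      · simp only at e; omega
    obtain ⟨k1, b1, f1⟩ := p1
    obtain ⟨k2, b2, f2⟩ := p2
    exact fin k1 k2 b1 f1 b2 f2
  · exfalso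
    obtain ⟨q1, e1⟩ := hl
    obtain ⟨q2, e2⟩ := hr
    -- s (B+3k+1) = B+3k, s (B+3k+2) = B+3k+3
    obtain ⟨x1, hx1⟩ := s.surjective (row h i ⟨B + 3 * k + 1, q1⟩)
    obtain ⟨x2, hx2⟩ := s.surjective (row h i ⟨B + 2 + 3 * k, by omega⟩)
    have p1 : ∃ k' : Fin (2 ^ l), bit k' i = false ∧ ix k' i = k := by
      rcases in_row c s hs h i _ x1 hx1 with ⟨hn, e⟩ | ⟨_, e⟩ | ⟨k', _, e, _⟩ | ⟨k', hb, e, _⟩ | e
      · exfalso
        have e' : x1 = row h i ⟨B + 2 + 3 * k, by omega⟩ := by
          rw [e]
          congr 1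
          apply Fin.ext
          simp only
          omega
        rw [e', e2] at hx1
        simp only [row.injEq, heq_eq_eq, Fin.mk.injEq, true_and] at hx1
        omega
      · exfalso
        have e' : x1 = row h i ⟨B + 3 * k, by omega⟩ := e
        apply h2 x1
        rw [hx1, e1, e']
      · simp only at e; omega
      · simp only at e; exact ⟨k', hb, by omega⟩
      · simp only at e; omega
    have p2 : ∃ k' : Fin (2 ^ l), bit k' i = true ∧ ix k' i = k := by
      rcases in_row c s hs h i _ x2 hx2 with ⟨hn, e⟩ | ⟨_, e⟩ | ⟨k', hb, e, _⟩ | ⟨k', _, e, _⟩ | e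
      · exfalso
        apply h2 x2
        rw [hx2, e2, e]
      · exfalso
        have e' : x2 = row h i ⟨B + 3 * k + 1, q1⟩ := by
          rw [e]
          congr 1
          apply Fin.ext
          simp only
          omega
        rw [e', e1] at hx2
        simp only [row.injEq, heq_eq_eq, Fin.mk.injEq, true_and] at hx2
        omega
      · simp only at e; exact ⟨k', hb, by omega⟩
      · simp only at e; omega
      · simp only at e; omega
    obtain ⟨k1, b1, f1⟩ := p1
    obtain ⟨k2, b2, f2⟩ := p2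
    exact fin k1 k2 b1 f1 b2 f2
  · exact Or.inr ⟨hl, hr⟩

/-- every row has a direction -/
theorem direction (hB : 1 ≤ B) (hs : ∀ x, Arc c x (s x)) (h2 : ∀ x, s (s x) ≠ x)
    (h : Fin D × Bool) (i : Fin l) :
    ((∀ n ≤ B, Rt s h i n) ∧ ∀ k < 2 ^ (i.1 + 1), Rt s h i (B + 3 * k) ∧ Rt s h i (B + 2 + 3 * k)) ∨
    ((∀ n ≤ B, Lt s h i n) ∧ ∀ k < 2 ^ (i.1 + 1), Lt s h i (B + 3 * k) ∧ Lt s h i (B + 2 + 3 * k)) := by
  have key : ∀ (P Q : ℕ → Prop), (∀ n, P n → Q n → False) →
      (∀ n, Straight B i (n + 1) → (P n ∧ P (n + 1)) ∨ (Q n ∧ Q (n + 1))) →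
      (∀ k < 2 ^ (i.1 + 1), (P (B + 3 * k) ∧ P (B + 2 + 3 * k)) ∨
        (Q (B + 3 * k) ∧ Q (B + 2 + 3 * k))) →
      P 0 → (∀ n ≤ B, P n) ∧ ∀ k < 2 ^ (i.1 + 1), P (B + 3 * k) ∧ P (B + 2 + 3 * k) := by
    intro P Q hPQ h1 h3 h0
    have a : ∀ n ≤ B, P n := by
      intro n
      induction n with
      | zero => intro _; exact h0
      | succ n ih =>
        intro hn
        rcases h1 n (Or.inl ⟨by omega, hn⟩) with h | h
        · exact h.2
        · exact (hPQ n (ih (by omega)) h.1).elim
    refine ⟨a, ?_⟩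
    intro k
    induction k with
    | zero =>
      intro hk
      rcases h3 0 hk with h | h
      · exact h
      · exact (hPQ _ (a B le_rfl) h.1).elim
    | succ k ih =>
      intro hk
      have h4 := ih (by omega)
      have h5 : P (B + 3 * (k + 1)) := by
        rcases h1 (B + 2 + 3 * k) (Or.inr ⟨k, by omega, by omega⟩) with h | h
        · have := h.2
          rwa [show B + 2 + 3 * k + 1 = B + 3 * (k + 1) by omega] at this
        · exact (hPQ _ h4.2 h.1).elim
      rcases h3 _ hk with h | h
      · exact h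
      · exact (hPQ _ h5 h.1).elim
  have hst := straight c s hs h2 h i
  have hp := pair c s hB hs h2 h i
  rcases hst 0 (Or.inl ⟨by omega, by omega⟩) with h0 | h0
  · left
    exact key (Rt s h i) (Lt s h i) (not_Rt_Lt s h2 h i) hst hp h0.1
  · right
    exact key (Lt s h i) (Rt s h i) (fun n a b => not_Rt_Lt s h2 h i n b a)
      (fun n hn => (hst n hn).symm) (fun k hk => (hp k hk).symm) h0.1

/-- the direction bit of a row: `false` is left to right -/
noncomputable def dir (s : Equiv.Perm (Vx D l B)) (h : Fin D × Bool) (i : Fin l) : Bool := by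
  classical
  exact if Rt s h i 0 then false else true

theorem dir_false (hB : 1 ≤ B) (hs : ∀ x, Arc c x (s x)) (h2 : ∀ x, s (s x) ≠ x) (h)
    (i : Fin l) (hd : dir s h i = false) :
    ((∀ n ≤ B, Rt s h i n) ∧ ∀ k < 2 ^ (i.1 + 1), Rt s h i (B + 3 * k) ∧ Rt s h i (B + 2 + 3 * k)) := by
  rcases direction c s hB hs h2 h i with h1 | h1
  · exact h1
  · exfalso
    unfold dir at hd
    split_ifs at hd with h3
    exact not_Rt_Lt s h2 h i 0 h3 (h1.1 0 (by omega))

theorem dir_true (hB : 1 ≤ B) (hs : ∀ x, Arc c x (s x)) (h2 : ∀ x, s (s x) ≠ x) (h)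
    (i : Fin l) (hd : dir s h i = true) :
    ((∀ n ≤ B, Lt s h i n) ∧ ∀ k < 2 ^ (i.1 + 1), Lt s h i (B + 3 * k) ∧ Lt s h i (B + 2 + 3 * k)) := by
  rcases direction c s hB hs h2 h i with h1 | h1
  · exfalso
    unfold dir at hd
    split_ifs at hd with h3
    exact h3 (h1.1 0 (by omega))
  · exact h1

/-- a clause vertex entered from a row is entered against the bit -/
theorem enter_row (hB : 1 ≤ B) (hs : ∀ x, Arc c x (s x)) (h2 : ∀ x, s (s x) ≠ x) (h i) (t)
    (h' : Fin D × Bool) (k : Fin (2 ^ l)) (hx : s (row h i t) = cl h' k) :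
    h = h' ∧ dir s h i ≠ bit k i := by
  have hk := ix_lt k i
  have H := hs (row h i t)
  rw [hx] at H
  cases H with
  | inR _ _ _ _ hb ht =>
    have hd : dir s h i = false := by
      by_contra hd
      have hd : dir s h i = true := by simpa using hd
      obtain ⟨q, e⟩ := ((dir_true c s hB hs h2 h i hd).2 _ hk).1
      have : t = ⟨B + 3 * ix k i + 1, q⟩ := Fin.ext (by simp only; omega)
      rw [this, e] at hx
      cases hx
    exact ⟨rfl, by rw [hd, hb]; simp⟩
  | inL _ _ _ _ hb ht =>
    have hd : dir s h i = true := by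
      by_contra hd
      have hd : dir s h i = false := by simpa using hd
      obtain ⟨q, e⟩ := ((dir_false c s hB hs h2 h i hd).2 _ hk).2
      have : t = ⟨B + 2 + 3 * ix k i, by omega⟩ := Fin.ext (by simp only; omega)
      rw [this, e] at hx
      cases hx
    exact ⟨rfl, by rw [hd, hb]; simp⟩
  | port _ _ _ hy => exact hy.elim

/-- a clause vertex left towards a row is left against the bit -/
theorem leave_row (hB : 1 ≤ B) (hs : ∀ x, Arc c x (s x)) (h2 : ∀ x, s (s x) ≠ x) (h i) (t)
    (h' : Fin D × Bool) (k : Fin (2 ^ l)) (hx : s (cl h' k) = row h i t) :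
    h = h' ∧ dir s h i ≠ bit k i := by
  have hk := ix_lt k i
  have H := hs (cl h' k)
  rw [hx] at H
  cases H with
  | outR _ _ _ _ hb ht =>
    have hd : dir s h i = false := by
      by_contra hd
      have hd : dir s h i = true := by simpa using hd
      obtain ⟨q, e⟩ := ((dir_true c s hB hs h2 h i hd).2 _ hk).2
      have : t = ⟨B + 2 + 3 * ix k i, by omega⟩ := Fin.ext (by simp only; omega)
      rw [this, ← e] at hx
      have := s.injective hx
      cases this
    exact ⟨rfl, by rw [hd, hb]; simp⟩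
  | outL _ _ _ _ hb ht =>
    have hd : dir s h i = true := by
      by_contra hd
      have hd : dir s h i = false := by simpa using hd
      obtain ⟨q, e⟩ := ((dir_false c s hB hs h2 h i hd).2 _ hk).1
      have : t = ⟨B + 3 * ix k i + 1, q⟩ := Fin.ext (by simp only; omega)
      rw [this, ← e] at hx
      cases s.injective hx
    exact ⟨rfl, by rw [hd, hb]; simp⟩
  | port _ _ hx _ => exact hx.elim

/-- the derivative arcs are used and the bits are forced -/
theorem forced (hB : 1 ≤ B) (hs : ∀ x, Arc c x (s x)) (h2 : ∀ x, s (s x) ≠ x) (b : Fin D) :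
    s (cl (b, false) (c (b, false))) = cl (b, true) (c (b, true)) ∧
    (∀ i, dir s (b, false) i = bit (c (b, false)) i) ∧
    (∀ i, dir s (b, true) i = bit (c (b, true)) i) := by
  -- entrance
  obtain ⟨k, hk⟩ : ∃ k, s (hub b false) = cl (b, false) k := by
    have H := hs (hub b false)
    generalize hy : s (hub b false) = y at H
    cases H with
    | hubIn _ k => exact ⟨k, rfl⟩
    | port _ _ hx _ => cases hx
  have hdk : ∀ i, dir s (b, false) i = bit k i := by
    have hne : ∀ a, a ≠ k → ∃ i, dir s (b, false) i ≠ bit a i := by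
      intro a ha
      obtain ⟨x, hx⟩ := s.surjective (cl (b, false) a)
      have H := hs x
      rw [hx] at H
      cases H with
      | inR h i t _ hb ht => exact ⟨i, (enter_row c s hB hs h2 _ i t _ a hx).2⟩
      | inL h i t _ hb ht => exact ⟨i, (enter_row c s hB hs h2 _ i t _ a hx).2⟩
      | hubIn _ _ =>
        rw [hk] at hx
        have : k = a := by
          cases hx
          rfl
        exact absurd this.symm ha
      | port _ _ _ hy => exact hy.elim
    obtain ⟨a, ha⟩ := bit_surj (dir s (b, false))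
    by_cases hac : a = k
    · intro i; rw [← hac, ha]
    · obtain ⟨i, hi⟩ := hne a hac
      exact absurd (ha i).symm hi
  have hk3 : k = c (b, false) ∧ s (cl (b, false) k) = cl (b, true) (c (b, true)) := by
    have H := hs (cl (b, false) k)
    generalize hy : s (cl (b, false) k) = y at H
    cases H with
    | outR h i t _ _ _ => exact absurd (hdk i) (leave_row c s hB hs h2 _ i t _ k hy).2
    | outL h i t _ _ _ => exact absurd (hdk i) (leave_row c s hB hs h2 _ i t _ k hy).2
    | y _ => exact ⟨rfl, rfl⟩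
    | port _ _ hx _ => cases hx
  -- exit
  obtain ⟨x, hx⟩ := s.surjective (hub b true)
  obtain ⟨k', hk'⟩ : ∃ k', x = cl (b, true) k' := by
    have H := hs x
    rw [hx] at H
    cases H with
    | hubOut _ k => exact ⟨k, rfl⟩
    | port _ _ _ hy => cases hy
  rw [hk'] at hx
  have hdk' : ∀ i, dir s (b, true) i = bit k' i := by
    have hne : ∀ a, a ≠ k' → ∃ i, dir s (b, true) i ≠ bit a i := by
      intro a ha
      have H := hs (cl (b, true) a)
      generalize hy : s (cl (b, true) a) = y at H
      cases H with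
      | outR h i t _ hb ht => exact ⟨i, (leave_row c s hB hs h2 _ i t _ a hy).2⟩
      | outL h i t _ hb ht => exact ⟨i, (leave_row c s hB hs h2 _ i t _ a hy).2⟩
      | hubOut _ _ =>
        rw [← hx] at hy
        have := s.injective hy
        have : a = k' := by
          cases this
          rfl
        exact absurd this ha
      | port _ _ hx _ => exact hx.elim
    obtain ⟨a, ha⟩ := bit_surj (dir s (b, true))
    by_cases hac : a = k'
    · intro i; rw [← hac, ha]
    · obtain ⟨i, hi⟩ := hne a hac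
      exact absurd (ha i).symm hi
  have hk5 : k' = c (b, true) := by
    obtain ⟨x, hx⟩ := s.surjective (cl (b, true) k')
    have H := hs x
    rw [hx] at H
    cases H with
    | inR h i t _ hb ht => exact absurd (hdk' i) (enter_row c s hB hs h2 _ i t _ k' hx).2
    | inL h i t _ hb ht => exact absurd (hdk' i) (enter_row c s hB hs h2 _ i t _ k' hx).2
    | y _ => rfl
    | port _ _ _ hy => exact hy.elim
  exact ⟨by rw [← hk3.1]; exact hk3.2, fun i => by rw [← hk3.1]; exact hdk i,
    fun i => by rw [← hk5]; exact hdk' i⟩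

/-- the bits are forced in all blocks -/
theorem forced_dir (hB : 1 ≤ B) (hs : ∀ x, Arc c x (s x)) (h2 : ∀ x, s (s x) ≠ x)
    (h : Fin D × Bool) (i) : dir s h i = bit (c h) i := by
  obtain ⟨b, e⟩ := h
  obtain ⟨_, h1, h3⟩ := forced c s hB hs h2 b
  cases e
  · exact h1 i
  · exact h3 i

/-- alive arcs in the direction of the choice are used -/
theorem forced_alive (hB : 1 ≤ B) (hs : ∀ x, Arc c x (s x)) (h2 : ∀ x, s (s x) ≠ x)
    (h : Fin D × Bool) (i) (n : ℕ) (hn : n < B) :
    (bit (c h) i = false → Rt s h i n) ∧ (bit (c h) i = true → Lt s h i n) := by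
  rw [← forced_dir c s hB hs h2 h i]
  exact ⟨fun hd => (dir_false c s hB hs h2 h i hd).1 n (by omega),
    fun hd => (dir_true c s hB hs h2 h i hd).1 n (by omega)⟩

end Pool.HAM
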