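import Pool.Agent.Helper10.HAM.Inst
import Pool.Agent.Helper76.CDET.Loop
import Pool.Agent.Helper91.HN.Num

/-! # Determinant sums for Hamiltonicity: undirected graphs -/

set_option autoImplicit false

namespace Pool.HAM

open MvPolynomial Pool.Agent.Helper76.CDET

/-- a Hamiltonian graph has at least `n` edges -/
theorem card_of_hamP {n : ℕ} (hn : 3 ≤ n) (S : Finset (Sym2 (Fin n))) (hS : HamP n S) :
    n ≤ S.card := by
  classical
  have h3 : 3 ≤ Fintype.card (Fin n) := by rw [Fintype.card_fin]; exact hn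
  obtain ⟨σ, hσ, hadj⟩ := exists_perm_of_isHamiltonian h3 hS
  have hinj : Function.Injective fun v => s(v, σ v) := by
    intro v w h
    simp only [Sym2.eq_iff] at h
    rcases h with ⟨h, _⟩ | ⟨h1, h2⟩
    · exact h
    · exfalso
      apply sq_ne hσ h3 v
      rw [h2, ← h1]
  have hsub : Finset.univ.image (fun v => s(v, σ v)) ⊆ S := by
    intro e he
    obtain ⟨v, _, rfl⟩ := Finset.mem_image.1 he
    have := hadj v
    rw [SimpleGraph.fromEdgeSet_adj] at this
    exact this.1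
  calc n = (Finset.univ.image (fun v => s(v, σ v))).card := by
        rw [Finset.card_image_of_injective _ hinj, Finset.card_univ, Fintype.card_fin]
    _ ≤ S.card := Finset.card_le_card hsub

/-- the complete graph is Hamiltonian -/
theorem hamP_univ {n : ℕ} (hn : 3 ≤ n) : HamP n Finset.univ := by
  classical
  have h3 : 3 ≤ Fintype.card (Fin n) := by rw [Fintype.card_fin]; exact hn
  have hadj : ∀ a b : Fin n, a ≠ b →
      (SimpleGraph.fromEdgeSet ((Finset.univ : Finset (Sym2 (Fin n))) :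
        Set (Sym2 (Fin n)))).Adj a b := by
    intro a b hab
    rw [SimpleGraph.fromEdgeSet_adj]
    exact ⟨by simp, hab⟩
  have hne : List.finRange n ≠ [] := by
    intro h
    have := congrArg List.length h
    rw [List.length_finRange] at this
    simp at this
    omega
  refine isHamiltonian_of_list (List.finRange n) hne (List.nodup_finRange n)
    (fun v => List.mem_finRange v) ?_ ?_ h3
  · exact List.Pairwise.isChain ((List.nodup_finRange n).imp fun {a b} hab => hadj a b hab)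
  · apply hadj
    intro h
    rw [List.getLast_eq_getElem, List.head_eq_getElem] at h
    have := (List.nodup_finRange n).getElem_inj_iff.1 h
    rw [List.length_finRange] at this
    omega

/-- a polynomial test for Hamiltonicity is of degree at least `n` -/
theorem le_of_test {F Ya : Type} [Field F] {n m r : ℕ} (hn : 3 ≤ n)
    (f : MvPolynomial (Sym2 (Fin n) ⊕ Ya) F) (hP : ∀ S, restr S f ≠ 0 ↔ HamP n S)
    (s : Fin r → ℕ) (hs : ∀ i, s i ≤ m)
    (A : ∀ i, Matrix (Fin (s i)) (Fin (s i)) (MvPolynomial (Sym2 (Fin n) ⊕ Ya) F))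
    (hA : ∀ i p q, ∀ μ ∈ (A i p q).support, ∑ e, μ (Sum.inl e) ≤ 1)
    (hf : f = ∑ i, (A i).det) : n ≤ m ∧ 1 ≤ r := by
  classical
  obtain ⟨μ, hμ, _⟩ := exists_sup f (HamP n) hP Finset.univ (hamP_univ hn)
  constructor
  · have h1 := card_of_hamP hn _ (prop_sup f (HamP n) hP μ hμ)
    have h2 : ∑ e, μ (Sum.inl e) ≤ m := deg_sum_det s hs A hA μ (by rw [← hf]; exact hμ)
    refine h1.trans (le_trans ?_ h2)
    rw [Finset.card_eq_sum_ones]
    calc ∑ _e ∈ sup μ, 1 ≤ ∑ e ∈ sup μ, μ (Sum.inl e) := by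
          refine Finset.sum_le_sum fun e he => ?_
          have := (Finset.mem_filter.1 he).2
          omega
      _ ≤ ∑ e, μ (Sum.inl e) :=
          Finset.sum_le_sum_of_subset (Finset.subset_univ _)
  · by_contra hr
    have hr : r = 0 := by omega
    subst hr
    rw [hf] at hμ
    simp at hμ

/-- the bound for undirected graphs -/
theorem undirected_bound : ∃ c : ℝ, 0 < c ∧ ∀ (F Ya : Type) [Field F] (n m r : ℕ),
    3 ≤ n → ∀ (f : MvPolynomial (Sym2 (Fin n) ⊕ Ya) F),
    (∀ μ ∈ f.support, ∀ e, μ (Sum.inl e) ≤ 1) →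
    (∀ G : SimpleGraph (Fin n), restrictG G f ≠ 0 ↔ G.IsHamiltonian) →
    ∀ (s : Fin r → ℕ), (∀ i, s i ≤ m) →
    ∀ (A : ∀ i, Matrix (Fin (s i)) (Fin (s i)) (MvPolynomial (Sym2 (Fin n) ⊕ Ya) F)),
    (∀ i p q, ∀ μ ∈ (A i p q).support, ∑ e, μ (Sum.inl e) ≤ 1) →
    f = ∑ i, (A i).det →
    n ≤ m ∧ Real.exp (c * n ^ 2 / (m * (1 + Real.log (m / n)) ^ 2)) ≤ 2 * r := by
  obtain ⟨c, hc, hN⟩ := Pool.HNN.HN2 54 (by norm_num)
  refine ⟨c, hc, ?_⟩
  intro F Ya _ n m r hn f hml hP s hs A hA hf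
  obtain ⟨f', A', hml', hP', hA', hf'⟩ := loopfree (fun G => G.IsHamiltonian) f hml hP s A hA hf
  have hnm := le_of_test hn f' hP' s hs A' hA' hf'
  refine ⟨hnm.1, ?_⟩
  refine hN n m r (by omega) hnm.1 hnm.2 ?_
  intro D l B hD hl hB hDm hcd q hq0 hq1
  have hcd' : 3 * cd D l B ≤ n := by
    have := cd_le D l B
    omega
  classical
  refine machine_bits_real f' hml' (HamP n) hP' (Xv n hD hcd') (Yv n hD hcd') (Zv n hD hcd')
    (inj_XY n hD hcd') ?_ ?_ ?_ ?_ s hs A' hA' hf' hDm q hq0 hq1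
  · intro x hx
    unfold Zv at hx
    rw [Finset.mem_filter] at hx
    exact hx.2.1 ⟨x, rfl⟩
  · intro y hy
    unfold Zv at hy
    rw [Finset.mem_filter] at hy
    exact hy.2.2.1 ⟨y, rfl⟩
  · intro c S hS hsub
    exact h1_ham n hD hcd' hB c S hS hsub
  · intro c
    exact h2_ham n hD hcd' hB c

end Pool.HAM
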