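import Pool.Agent.Helper10.HAM.Gen
import Pool.Agent.Helper10.GT.RandReal
import Pool.Agent.Helper10.GT.NumPf
import Pool.Agent.Helper28.MAJ.Gap

/-! # Random tests for Hamiltonicity: undirected graphs -/

set_option autoImplicit false

namespace Pool.HAM

open MvPolynomial Pool.Agent.Helper76.CDET
open Pool.RT (Pr Pr_eq)

/-- the inequality for random tests -/
theorem random_gen {F Ya Ω : Type} [Field F] [Fintype Ω] {n : ℕ} (hn : 3 ≤ n)
    (w : Ω → ℝ) (hw0 : ∀ i, 0 ≤ w i) (hw1 : ∑ i, w i = 1)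
    (f : Ω → MvPolynomial (Sym2 (Fin n) ⊕ Ya) F) (ε1 ε2 : ℝ)
    (hyes : ∀ S, HamP n S → Pr w (fun i => restr S (f i) = 0) ≤ ε1)
    (hno : ∀ S, ¬ HamP n S → Pr w (fun i => restr S (f i) ≠ 0) ≤ ε2)
    {dg : ℕ} (hdg : ∀ i, ∀ μ ∈ (f i).support, ∑ e, μ (Sum.inl e) ≤ dg)
    (D l B : ℕ) (hD : 1 ≤ D) (hl : 1 ≤ l) (hB : 1 ≤ B) (hcd : 54 * (D * (l * B + 2 ^ l)) ≤ n)
    (β : ℝ) (hβ : 0 < β) (A L : ℕ) (hA : 1 ≤ A) (hL1 : 1 ≤ L) (hL : A * (D * dg) ≤ n * L)
    (τ T0 : ℕ) (hτ : (T0 : ℝ) + β * (2 * D * l * B) ≤ τ * B)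
    (q : ℝ) (hq0 : 0 < q) (hq1 : q < 1) (l0 : ℕ) (R : ℝ) (hR0 : 0 ≤ R)
    (hR : ∀ i, ∀ D' ≤ L, Pool.RT.SmallK (f i) D' l0 (ENNReal.ofReal q) (ENNReal.ofReal R))
    (hT0 : 2 ^ (2 * D * l) * q ^ T0 ≤ 1 / 2) :
    q ^ l0 * ((1 - (ε1 + ε2 / β + 1 / A)) * 2 ^ (2 * D * l)) ≤
      2 * R * ((L + 1) * ∑ j ∈ Finset.range τ, ((2 * D * l).choose j : ℝ)) := by
  classical
  have hcd' : 3 * cd D l B ≤ n := by
    have := cd_le D l B
    omega
  refine Pool.GT.random_bits_real (Γ := Equiv.Perm (Fin n)) w hw0 hw1 f (HamP n) ε1 ε2 hyes hno hdg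
    (fun g S hS => hamP_smul g S hS) hD hl hB (Xv n hD hcd') (Yv n hD hcd') (Zv n hD hcd')
    (inj_XY n hD hcd') ?_ ?_ ?_ (N := n) (by omega) ?_ β hβ A L hA hL1 hL τ T0 hτ q hq0 hq1 l0 R hR0
    hR hT0
  · intro x hx
    unfold Zv at hx
    rw [Finset.mem_filter] at hx
    exact hx.2.1 ⟨x, rfl⟩
  · intro y hy
    unfold Zv at hy
    rw [Finset.mem_filter] at hy
    exact hy.2.2.1 ⟨y, rfl⟩
  · intro c S hS hsub
    exact h1_ham n hD hcd' hB c S hS hsub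
  · intro c
    obtain ⟨S, hS, hS2⟩ := h2_ham n hD hcd' hB c
    obtain ⟨S', hsub, hPS', hmin, hcard, htr⟩ := exists_minimal hn S hS
    exact ⟨S', hPS', fun e he => hS2 e (hsub he), hmin, hcard, htr⟩

/-- random tests, small errors, any class of polynomials with small spaces -/
theorem random_small : ∃ c C : ℝ, 0 < c ∧ 0 < C ∧ ∀ (F Ya Ω : Type) [Field F] [Fintype Ω]
    (w : Ω → ℝ), (∀ i, 0 ≤ w i) → ∑ i, w i = 1 → ∀ (n m d ν r : ℕ) (μ : ℝ),
    3 ≤ n → 1 ≤ d → 1 ≤ r → 1 ≤ μ → ((ν + m * d : ℕ) : ℝ) ≤ μ * n → 165888 * ν ≤ n →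
    ∀ (f : Ω → MvPolynomial (Sym2 (Fin n) ⊕ Ya) F),
    (∀ i, Pool.GT.Cls r m d ν (f i)) →
    (∀ i, ∀ μ ∈ (f i).support, ∑ e, μ (Sum.inl e) ≤ ν + m * d) →
    (∀ S, HamP n S → Pr w (fun i => restr S (f i) = 0) ≤ 1 / 64) →
    (∀ S, ¬ HamP n S → Pr w (fun i => restr S (f i) ≠ 0) ≤ 1 / 64) →
    Real.exp (c * n / (d * (2 * μ) ^ (C * μ))) ≤ 2 * r := by
  obtain ⟨c, C, hc, hC, hN⟩ := Pool.GT.numericsPf 54 (by norm_num)
  refine ⟨c, C, hc, hC, ?_⟩
  intro F Ya Ω _ _ w hw0 hw1 n m d ν r μ hn hd hr hμ hdeg hν f hf hdg hyes hno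
  refine hN n m d ν r μ (by omega) hd hr hμ hdeg (by omega) ?_
  intro D l B hD hl hB hcd L τ T0 hL1 hL hτ q hq0 hq1 hT0
  have h := random_gen hn w hw0 hw1 f (1 / 64) (1 / 64) hyes hno hdg D l B hD hl hB hcd (1 / 8)
    (by norm_num) 8 L (by norm_num) hL1 hL τ T0 hτ q hq0 hq1 (ν + L * (d - 1))
    (Pool.GT.RP r m d L q) (Pool.GT.RP_nonneg r m d L hq1)
    (fun i D' hD' => hf i L D' hD' q hq0 hq1) hT0
  have h2 : q ^ (ν + L * (d - 1)) * (1 / 2 * 2 ^ (2 * D * l)) ≤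
      q ^ (ν + L * (d - 1)) * ((1 - ((1 / 64 : ℝ) + 1 / 64 / (1 / 8) + 1 / (8 : ℕ))) *
        2 ^ (2 * D * l)) := by
    refine mul_le_mul_of_nonneg_left ?_ (by positivity)
    refine mul_le_mul_of_nonneg_right ?_ (by positivity)
    norm_num
  exact h2.trans h

/-- the probability of an event for graphs and for sets of pairs -/
theorem pr_ND {F Ya Ω : Type} [Field F] [Fintype Ω] {n : ℕ} (w : Ω → ℝ)
    (f : Ω → MvPolynomial (Sym2 (Fin n) ⊕ Ya) F) (S : Finset (Sym2 (Fin n))) :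
    Pr w (fun i => restr S (restr (ND n) (f i)) = 0) =
      Pr w (fun i => restrictG (SimpleGraph.fromEdgeSet (S : Set (Sym2 (Fin n)))) (f i) = 0) := by
  congr 1
  funext i
  rw [restr_ND]

theorem pr_ND' {F Ya Ω : Type} [Field F] [Fintype Ω] {n : ℕ} (w : Ω → ℝ)
    (f : Ω → MvPolynomial (Sym2 (Fin n) ⊕ Ya) F) (S : Finset (Sym2 (Fin n))) :
    Pr w (fun i => restr S (restr (ND n) (f i)) ≠ 0) =
      Pr w (fun i => restrictG (SimpleGraph.fromEdgeSet (S : Set (Sym2 (Fin n)))) (f i) ≠ 0) := by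
  congr 1
  funext i
  rw [restr_ND]

/-- power estimate -/
theorem rpow_est {N : ℕ} (hN : 1 ≤ N) {μ C : ℝ} (hμ : 1 ≤ μ) (hC : 0 < C) :
    (2 * (N * μ)) ^ (C * (N * μ)) ≤ (2 * μ) ^ ((C * N * (N + 1)) * μ) := by
  have hN' : (1 : ℝ) ≤ N := by exact_mod_cast hN
  have h1 : 2 * (N * μ) ≤ (2 * μ) ^ ((N + 1 : ℕ) : ℝ) := by
    rw [Real.rpow_natCast, pow_succ]
    have h2 : (N : ℝ) ≤ (2 * μ) ^ N := by
      have h3 : (N : ℝ) ≤ 2 ^ N := by exact_mod_cast (Nat.lt_two_pow_self (n := N)).le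
      exact h3.trans (pow_le_pow_left₀ (by norm_num) (by linarith) _)
    have h3 : 0 < 2 * μ := by linarith
    nlinarith
  calc (2 * (N * μ)) ^ (C * (N * μ)) ≤ ((2 * μ) ^ ((N + 1 : ℕ) : ℝ)) ^ (C * (N * μ)) :=
        Real.rpow_le_rpow (by positivity) h1 (by positivity)
    _ = (2 * μ) ^ ((C * N * (N + 1)) * μ) := by
        rw [← Real.rpow_mul (by positivity)]
        congr 1
        push_cast
        ring

/-- RANDOM TESTS for undirected graphs: sums of Pfaffians with cofactors -/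
theorem random_undirected (e1 e2 : ℝ) (h1 : 0 ≤ e1) (h2 : 0 ≤ e2) (he : e1 + e2 < 1) :
    ∃ c C : ℝ, 0 < c ∧ 0 < C ∧ ∀ (F Ya Ω : Type) [Field F] [Fintype Ω] (w : Ω → ℝ),
      (∀ i, 0 ≤ w i) → ∑ i, w i = 1 → ∀ (n m d ν r : ℕ) (μ : ℝ),
      3 ≤ n → 1 ≤ d → 1 ≤ μ → (m * d : ℝ) ≤ μ * n → (ν : ℝ) ≤ c * n →
      ∀ (f : Ω → MvPolynomial (Sym2 (Fin n) ⊕ Ya) F), (∀ i, IsPfSum r m d ν (f i)) →
      (∀ G : SimpleGraph (Fin n), G.IsHamiltonian →
        Pr w (fun i => restrictG G (f i) = 0) ≤ e1) →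
      (∀ G : SimpleGraph (Fin n), ¬ G.IsHamiltonian →
        Pr w (fun i => restrictG G (f i) ≠ 0) ≤ e2) →
      Real.exp (c * n / (d * (2 * μ) ^ (C * μ))) ≤ 2 * r := by
  obtain ⟨c, C, hc, hC, H⟩ := random_small
  obtain ⟨N, hN1, hN⟩ := Pool.MAJ.majority_gap e1 e2 (1 / 64) h1 h2 he (by norm_num)
  have hN' : (1 : ℝ) ≤ N := by exact_mod_cast hN1
  have hN0 : (0 : ℝ) < N := by linarith
  refine ⟨min (c / (2 * N)) (1 / (165888 * N)), C * (2 * N) * (2 * N + 1), by positivity,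
    by positivity, ?_⟩
  intro F Ya Ω _ _ w hw0 hw1 n m d ν r μ hn hd hμ hmd hν f hf hyes hno
  classical
  have hn0 : (0 : ℝ) < n := by
    have : 0 < n := by omega
    exact_mod_cast this
  have hd0 : (0 : ℝ) < d := by exact_mod_cast hd
  have hμ0 : 0 < μ := by linarith
  -- r is positive
  have hr : 1 ≤ r := by
    by_contra hr
    have hr0 : r = 0 := by omega
    subst hr0
    have hf0 : ∀ i, f i = 0 := by
      intro i
      obtain ⟨s, P, A, -, -, -, hfA⟩ := hf i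
      exact hfA.trans (Finset.sum_of_isEmpty _)
    have hHam : (SimpleGraph.fromEdgeSet ((Finset.univ : Finset (Sym2 (Fin n))) :
        Set (Sym2 (Fin n)))).IsHamiltonian := hamP_univ hn
    have h3 := hyes _ hHam
    have h4 : Pr w (fun i => restrictG (SimpleGraph.fromEdgeSet ((Finset.univ :
        Finset (Sym2 (Fin n))) : Set (Sym2 (Fin n)))) (f i) = 0) = 1 := by
      rw [Pr_eq]
      refine (Finset.sum_congr rfl fun i _ => ?_).trans hw1
      have : restrictG (SimpleGraph.fromEdgeSet ((Finset.univ :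
        Finset (Sym2 (Fin n))) : Set (Sym2 (Fin n)))) (f i) = 0 := by
        rw [hf0 i]
        simp [restrictG]
      rw [if_pos this, mul_one]
    rw [h4] at h3
    linarith
  have hr' : (1 : ℝ) ≤ r := by exact_mod_cast hr
  have hν1 : (ν : ℝ) ≤ 1 / (165888 * N) * n :=
    hν.trans (mul_le_mul_of_nonneg_right (min_le_right _ _) hn0.le)
  have hν2 : (165888 * (N * ν : ℕ) : ℝ) ≤ n := by
    rw [div_mul_eq_mul_div, one_mul, le_div_iff₀ (by positivity)] at hν1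
    push_cast
    linarith
  have hν3 : 165888 * (N * ν) ≤ n := by exact_mod_cast hν2
  obtain ⟨Ω', Ya', _, w', f', hw0', hw1', -, hpf, hS⟩ := hN F (Sym2 (Fin n)) Ya Ω w hw0 hw1
    (fun i => restr (ND n) (f i))
  have hf' := hpf r m d ν (fun i => (hf i).restr _)
  have hr2 : 1 ≤ 2 ^ N * r ^ N := Nat.one_le_iff_ne_zero.2 (by positivity)
  have hmain := H F Ya' Ω' w' hw0' hw1' n (N * m) d (N * ν) (2 ^ N * r ^ N) (2 * N * μ) hn hd hr2
    (by nlinarith) (by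
      push_cast
      have h5 : (N : ℝ) * ν ≤ N * μ * n := by
        have h6 : (ν : ℝ) ≤ n := by
          have : ν ≤ n := by nlinarith
          exact_mod_cast this
        calc (N : ℝ) * ν ≤ N * (1 * n) := by rw [one_mul]; gcongr
          _ ≤ N * (μ * n) := by gcongr
          _ = _ := by ring
      have h6 : (N : ℝ) * m * d ≤ N * μ * n := by
        calc (N : ℝ) * m * d = N * (m * d) := by ring
          _ ≤ N * (μ * n) := by gcongr
          _ = _ := by ring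
      linarith) hν3 f'
    (fun i => Pool.GT.cls_pf hd _ (hf' i)) (fun i μ hμ => deg_pfsum (hf' i) μ hμ)
    (by
      intro S hPS
      refine (hS S).1 ?_
      have h5 := hyes _ hPS
      rw [← pr_ND] at h5
      exact h5)
    (by
      intro S hPS
      refine (hS S).2 ?_
      have h5 := hno _ hPS
      rw [← pr_ND'] at h5
      exact h5)
  -- conclusion
  have hexp : Real.exp (c * n / (d * (2 * (2 * N * μ)) ^ (C * (2 * N * μ)))) ≤ (4 * r) ^ N := by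
    refine hmain.trans ?_
    push_cast
    have h5 : (4 * (r : ℝ)) ^ N = 2 ^ N * (2 ^ N * r ^ N) := by
      rw [mul_pow, show (4 : ℝ) = 2 * 2 by norm_num, mul_pow]
      ring
    rw [h5]
    have h6 : (2 : ℝ) ≤ 2 ^ N := by
      calc (2 : ℝ) = 2 ^ 1 := by norm_num
        _ ≤ 2 ^ N := pow_le_pow_right₀ (by norm_num) hN1
    have h7 : (0 : ℝ) ≤ 2 ^ N * r ^ N := by positivity
    nlinarith
  have hest := rpow_est (N := 2 * N) (by omega) hμ hC
  push_cast at hest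
  set E : ℝ := c * n / (d * (2 * (2 * N * μ)) ^ (C * (2 * N * μ))) with hE
  have hroot : Real.exp (E / N) ≤ 4 * r := by
    refine le_of_pow_le_pow_left₀ (n := N) (by omega) (by positivity) ?_
    rw [← Real.exp_nat_mul]
    refine le_trans (le_of_eq ?_) hexp
    congr 1
    field_simp
  have hhalf : Real.exp (E / N / 2) ≤ 2 * r := by
    refine le_of_pow_le_pow_left₀ (n := 2) (by norm_num) (by positivity) ?_
    rw [← Real.exp_nat_mul]
    calc Real.exp ((2 : ℕ) * (E / N / 2)) = Real.exp (E / N) := by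
          congr 1
          push_cast
          ring
      _ ≤ 4 * r := hroot
      _ ≤ (2 * r) ^ 2 := by nlinarith
  refine (Real.exp_le_exp.2 ?_).trans hhalf
  have hpos1 : (0 : ℝ) < (2 * (2 * N * μ)) ^ (C * (2 * N * μ)) := by positivity
  calc min (c / (2 * N)) (1 / (165888 * N)) * n /
        (d * (2 * μ) ^ (C * (2 * N) * (2 * N + 1) * μ))
      ≤ c / (2 * N) * n / (d * (2 * μ) ^ (C * (2 * N) * (2 * N + 1) * μ)) := by
        gcongr
        exact min_le_left _ _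
    _ ≤ c / (2 * N) * n / (d * (2 * (2 * N * μ)) ^ (C * (2 * N * μ))) := by
        gcongr
    _ = E / N / 2 := by
        rw [hE]
        field_simp

end Pool.HAM
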