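import Pool.Agent.Helper10.HAM.Cyc

/-! # From digraphs to graphs: every vertex becomes a path -/

namespace Pool.HAM

section cyc

variable {U : Type*} {σ : Equiv.Perm U}

theorem closed_univ (hσ : σ.IsCycleOn Set.univ) (C : Set U) (hne : C.Nonempty)
    (h1 : ∀ u ∈ C, σ u ∈ C) (h2 : ∀ u ∈ C, σ.symm u ∈ C) : ∀ u, u ∈ C := by
  intro u
  obtain ⟨v, hv⟩ := hne
  obtain ⟨i, hi⟩ := hσ.2 (Set.mem_univ v) (Set.mem_univ u)
  rw [← hi]
  clear hi
  induction i using Int.induction_on with
  | zero => simpa using hv
  | succ i ih =>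
    rw [add_comm, zpow_add, zpow_one, Equiv.Perm.mul_apply]
    exact h1 _ ih
  | pred i ih =>
    rw [sub_eq_add_neg, add_comm, zpow_add, zpow_neg_one, Equiv.Perm.mul_apply]
    exact h2 _ ih

theorem sq_ne [Fintype U] (hσ : σ.IsCycleOn Set.univ) (h3 : 3 ≤ Fintype.card U) (v : U) :
    σ (σ v) ≠ v := by
  classical
  intro h
  have hall := closed_univ hσ {v, σ v} ⟨v, by simp⟩
    (by
      intro u hu
      rcases hu with rfl | hu
      · simp
      · rw [Set.mem_singleton_iff] at hu
        rw [hu, h]; simp)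
    (by
      intro u hu
      rcases hu with rfl | hu
      · right
        rw [Set.mem_singleton_iff, Equiv.symm_apply_eq, h]
      · rw [Set.mem_singleton_iff] at hu
        rw [hu]; simp)
  have hc : Fintype.card U ≤ 2 := by
    rw [← Finset.card_univ]
    have : (Finset.univ : Finset U) ⊆ {v, σ v} := by
      intro u _
      simpa using hall u
    exact (Finset.card_le_card this).trans Finset.card_le_two
  omega

end cyc

section expand

variable {W : Type*} {len : W → ℕ} (hlen : ∀ x, 3 ≤ len x)

/-- first vertex of a path -/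
def fst (hlen : ∀ x, 3 ≤ len x) (x : W) : Σ x, Fin (len x) := ⟨x, ⟨0, by have := hlen x; omega⟩⟩

/-- last vertex of a path -/
def lst (hlen : ∀ x, 3 ≤ len x) (x : W) : Σ x, Fin (len x) :=
  ⟨x, ⟨len x - 1, by have := hlen x; omega⟩⟩

/-- inner edges of the paths -/
def Inn (u v : Σ x, Fin (len x)) : Prop := u.1 = v.1 ∧ u.2.1 + 1 = v.2.1

/-- allowed edges -/
def Allowed (hlen : ∀ x, 3 ≤ len x) (A : W → W → Prop) (u v : Σ x, Fin (len x)) : Prop :=
  Inn u v ∨ Inn v u ∨ (∃ x y, u = lst hlen x ∧ v = fst hlen y ∧ A x y) ∨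
    (∃ x y, v = lst hlen x ∧ u = fst hlen y ∧ A x y)

theorem sig_ext {u v : Σ x, Fin (len x)} (h1 : u.1 = v.1) (h2 : u.2.1 = v.2.1) : u = v := by
  obtain ⟨x, k⟩ := u
  obtain ⟨y, m⟩ := v
  simp only at h1
  subst h1
  simp only at h2
  rw [Fin.ext h2]

variable (A : W → W → Prop) (E : (Σ x, Fin (len x)) → (Σ x, Fin (len x)) → Prop)
  (hE : ∀ u v, E u v → Allowed hlen A u v) (hsym : ∀ u v, E u v → E v u)
  (σ : Equiv.Perm (Σ x, Fin (len x)))
  (h2 : ∀ u, σ (σ u) ≠ u) (hσE : ∀ u, E u (σ u))

/-- adjacent on the cycle -/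
def Had (σ : Equiv.Perm (Σ x, Fin (len x))) (u v : Σ x, Fin (len x)) : Prop := σ u = v ∨ σ v = u

theorem Had.symm {u v : Σ x, Fin (len x)} (h : Had σ u v) : Had σ v u := Or.symm h

theorem two_nb (u v w z : Σ x, Fin (len x)) (h1 : Had σ u v) (h3 : Had σ u w) (h4 : Had σ u z)
    (hvw : v ≠ w) : z = v ∨ z = w := by
  rcases h1 with h1 | h1 <;> rcases h3 with h3 | h3 <;> rcases h4 with h4 | h4
  · exact Or.inl (h4.symm.trans h1)
  · exact absurd (h1.symm.trans h3) hvw
  · exact Or.inl (h4.symm.trans h1)
  · exact Or.inr (σ.injective (h4.trans h3.symm))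
  · exact Or.inr (h4.symm.trans h3)
  · exact Or.inl (σ.injective (h4.trans h1.symm))
  · exact absurd (σ.injective (h1.trans h3.symm)) hvw
  · exact Or.inr (σ.injective (h4.trans h3.symm))

include hE hsym hσE in
theorem had_allowed (u v : Σ x, Fin (len x)) (h : Had σ u v) : Allowed hlen A u v := by
  rcases h with h | h
  · rw [← h]; exact hE _ _ (hσE _)
  · rw [← h]; exact hE _ _ (hsym _ _ (hσE _))

include h2 in
theorem had_two (u : Σ x, Fin (len x)) : ∃ v w, Had σ u v ∧ Had σ u w ∧ v ≠ w := by
  refine ⟨σ u, σ.symm u, Or.inl rfl, Or.inr (by simp), fun h => ?_⟩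
  apply h2 (σ.symm u)
  simp [h]

include hE hsym h2 hσE in
/-- both edges at an inner vertex are used -/
theorem inner_used (x : W) (k : ℕ) (hk : k + 2 < len x) :
    Had σ ⟨x, ⟨k + 1, by omega⟩⟩ ⟨x, ⟨k, by omega⟩⟩ ∧
    Had σ ⟨x, ⟨k + 1, by omega⟩⟩ ⟨x, ⟨k + 2, hk⟩⟩ := by
  have key : ∀ v, Had σ ⟨x, ⟨k + 1, by omega⟩⟩ v →
      v = ⟨x, ⟨k, by omega⟩⟩ ∨ v = ⟨x, ⟨k + 2, hk⟩⟩ := by
    intro v hv
    rcases had_allowed hlen A E hE hsym σ hσE _ v hv with h | h | ⟨x', y, h, _, _⟩ | ⟨x', y, _, h, _⟩
    · right
      exact sig_ext h.1.symm (by have := h.2; simp only at this ⊢; omega)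
    · left
      exact sig_ext h.1 (by have := h.2; simp only at this ⊢; omega)
    · exfalso
      unfold lst at h
      have h1 : x = x' := congrArg Sigma.fst h
      subst h1
      simp only [Sigma.mk.injEq, heq_eq_eq, Fin.mk.injEq, true_and] at h
      omega
    · exfalso
      unfold fst at h
      have h1 : x = y := congrArg Sigma.fst h
      subst h1
      simp only [Sigma.mk.injEq, heq_eq_eq, Fin.mk.injEq, true_and] at h
      omega
  obtain ⟨v, w, hv, hw, hvw⟩ := had_two σ h2 (⟨x, ⟨k + 1, by omega⟩⟩ : Σ x, Fin (len x))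
  rcases key v hv with e1 | e1 <;> rcases key w hw with e3 | e3
  · exact absurd (e1.trans e3.symm) hvw
  · exact ⟨e1 ▸ hv, e3 ▸ hw⟩
  · exact ⟨e3 ▸ hw, e1 ▸ hv⟩
  · exact absurd (e1.trans e3.symm) hvw

include hE hsym h2 hσE in
theorem last_used (x : W) : ∃ y, A x y ∧ Had σ (lst hlen x) (fst hlen y) := by
  have h3 := hlen x
  have hin := (inner_used hlen A E hE hsym σ h2 hσE x (len x - 3) (by omega)).2
  have hl : (⟨x, ⟨len x - 3 + 2, by omega⟩⟩ : Σ x, Fin (len x)) = lst hlen x :=
    sig_ext rfl (by simp only [lst]; omega)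
  rw [hl] at hin
  obtain ⟨v, w, hv, hw, hvw⟩ := had_two σ h2 (lst hlen x)
  -- one of them is not the inner neighbour
  have key : ∀ v, Had σ (lst hlen x) v → v ≠ ⟨x, ⟨len x - 3 + 1, by omega⟩⟩ →
      ∃ y, A x y ∧ Had σ (lst hlen x) (fst hlen y) := by
    intro v hv hne
    rcases had_allowed hlen A E hE hsym σ hσE _ v hv with h | h | ⟨x', y, h, h', hA⟩ | ⟨x', y, _, h, _⟩
    · exfalso
      have h4 := h.2
      have h6 : v.1 = x := h.1.symm
      have h5 : v.2.1 < len x := lt_of_lt_of_eq v.2.2 (congrArg len h6)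
      simp only [lst] at h4
      omega
    · exfalso
      apply hne
      have h4 := h.2
      simp only [lst] at h4
      exact sig_ext h.1 (by simp only; omega)
    · have h1 : x = x' := congrArg Sigma.fst h
      subst h1
      exact ⟨y, hA, h' ▸ hv⟩
    · exfalso
      unfold fst lst at h
      have h1 : x = y := congrArg Sigma.fst h
      subst h1
      simp only [Sigma.mk.injEq, heq_eq_eq, Fin.mk.injEq, true_and] at h
      omega
  by_cases hv' : v = ⟨x, ⟨len x - 3 + 1, by omega⟩⟩
  · exact key w hw (fun e => hvw (hv'.trans e.symm))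
  · exact key v hv hv'

include hE hsym h2 hσE in
theorem first_inner (x : W) :
    Had σ (fst hlen x) ⟨x, ⟨1, by have := hlen x; omega⟩⟩ := by
  have h3 := hlen x
  exact (inner_used hlen A E hE hsym σ h2 hσE x 0 (by omega)).1.symm

include hE hsym h2 hσE in
theorem last_inner (x : W) :
    Had σ (lst hlen x) ⟨x, ⟨len x - 2, by have := hlen x; omega⟩⟩ := by
  have h3 := hlen x
  have hin := (inner_used hlen A E hE hsym σ h2 hσE x (len x - 3) (by omega)).2
  have hl : (⟨x, ⟨len x - 3 + 2, by omega⟩⟩ : Σ x, Fin (len x)) = lst hlen x :=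
    sig_ext rfl (by simp only [lst]; omega)
  have hl2 : (⟨x, ⟨len x - 3 + 1, by omega⟩⟩ : Σ x, Fin (len x)) =
      ⟨x, ⟨len x - 2, by omega⟩⟩ := sig_ext rfl (by simp only; omega)
  rw [hl, hl2] at hin
  exact hin.symm

include hE hsym h2 hσE in
theorem exists_succ [Finite W] (hW : ∃ x y z : W, x ≠ y ∧ y ≠ z ∧ x ≠ z)
    (hσ : σ.IsCycleOn Set.univ) :
    ∃ s : Equiv.Perm W, (∀ x, A x (s x)) ∧ (∀ x, s (s x) ≠ x) ∧
      ∀ x, E (lst hlen x) (fst hlen (s x)) := by
  choose f hfA hfH using last_used hlen A E hE hsym σ h2 hσE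
  have hne : ∀ x y : W, lst hlen x ≠ ⟨y, ⟨1, by have := hlen y; omega⟩⟩ := by
    intro x y h
    have h3 := hlen x
    unfold lst at h
    have h1 : x = y := congrArg Sigma.fst h
    subst h1
    simp only [Sigma.mk.injEq, heq_eq_eq, Fin.mk.injEq, true_and] at h
    omega
  have hinj : Function.Injective f := by
    intro x x' hxx
    have h1 := (hfH x).symm
    have h3 := (hfH x').symm
    rw [← hxx] at h3
    have h4 := first_inner hlen A E hE hsym σ h2 hσE (f x)
    by_contra hcon
    have hll : lst hlen x ≠ lst hlen x' := fun e => hcon (congrArg Sigma.fst e)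
    rcases two_nb σ _ _ _ _ h1 h3 h4 hll with e | e
    · exact hne _ _ e.symm
    · exact hne _ _ e.symm
  have hbij : Function.Bijective f := Finite.injective_iff_bijective.1 hinj
  refine ⟨Equiv.ofBijective f hbij, hfA, ?_, ?_⟩
  · intro x hx
    have hx : f (f x) = x := hx
    -- the two paths form a closed set
    have hcl : ∀ u v, Had σ u v → (u.1 = x ∨ u.1 = f x) → (v.1 = x ∨ v.1 = f x) := by
      intro u v huv hu
      rcases had_allowed hlen A E hE hsym σ hσE _ v huv with h | h | ⟨x', y, h, h', hA⟩ |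
        ⟨x', y, h, h', hA⟩
      · rw [← h.1]; exact hu
      · rw [h.1]; exact hu
      · -- u = last x', v = first y
        have e1 : u.1 = x' := by rw [h]; rfl
        have h5 := hfH x'
        have h6 := last_inner hlen A E hE hsym σ h2 hσE x'
        have hd : fst hlen (f x') ≠ ⟨x', ⟨len x' - 2, by have := hlen x'; omega⟩⟩ := by
          intro e
          have h3 := hlen x'
          unfold fst at e
          have e2 : f x' = x' := congrArg Sigma.fst e
          have e3 : (0 : ℕ) = len x' - 2 := by
            have := congrArg (fun z : Σ x, Fin (len x) => z.2.1) e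
            simpa using this
          omega
        rw [h] at huv
        have h7 : v = fst hlen (f x') := by
          rcases two_nb σ _ _ _ _ h5 h6 huv hd with e | e
          · exact e
          · exfalso
            rw [h'] at e
            have h3 := hlen x'
            unfold fst at e
            have e2 : y = x' := congrArg Sigma.fst e
            have e3 : (0 : ℕ) = len x' - 2 := by
              have := congrArg (fun z : Σ x, Fin (len x) => z.2.1) e
              simpa using this
            omega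
        rw [h7]
        change f x' = x ∨ f x' = f x
        rcases hu with hu | hu
        · right; rw [← e1, hu]
        · left; rw [← e1, hu, hx]
      · -- v = last x', u = first y
        have e1 : u.1 = y := by rw [h']; rfl
        obtain ⟨z, hz⟩ := hbij.2 y
        have h5 := (hfH z).symm
        rw [hz] at h5
        have h6 := first_inner hlen A E hE hsym σ h2 hσE y
        rw [h'] at huv
        have h7 : v = lst hlen z := by
          rcases two_nb σ _ _ _ _ h5 h6 huv (hne _ _) with e | e
          · exact e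
          · exact absurd (h ▸ e) (hne _ _)
        rw [h7]
        change z = x ∨ z = f x
        rcases hu with hu | hu
        · right
          apply hinj
          rw [hz, ← e1, hu, hx]
        · left
          apply hinj
          rw [hz, ← e1, hu]
    have hall := closed_univ hσ {u | u.1 = x ∨ u.1 = f x} ⟨lst hlen x, Or.inl rfl⟩
      (fun u hu => hcl u (σ u) (Or.inl rfl) hu)
      (fun u hu => hcl u (σ.symm u) (Or.inr (by simp)) hu)
    obtain ⟨a, b, d, hab, hbd, had⟩ := hW
    have ha := hall (lst hlen a)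
    have hb := hall (lst hlen b)
    have hd := hall (lst hlen d)
    change a = x ∨ a = f x at ha
    change b = x ∨ b = f x at hb
    change d = x ∨ d = f x at hd
    rcases ha with ha | ha <;> rcases hb with hb | hb <;> rcases hd with hd | hd
    · exact hab (ha.trans hb.symm)
    · exact hab (ha.trans hb.symm)
    · exact had (ha.trans hd.symm)
    · exact hbd (hb.trans hd.symm)
    · exact hbd (hb.trans hd.symm)
    · exact had (ha.trans hd.symm)
    · exact hab (ha.trans hb.symm)
    · exact hab (ha.trans hb.symm)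
  · intro x
    rcases hfH x with h | h
    · have := hσE (lst hlen x)
      rw [h] at this
      exact this
    · have := hσE (fst hlen (f x))
      rw [h] at this
      exact hsym _ _ this

end expand

end Pool.HAM
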